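import Pool.Agent.Helper71.TwoPt.Nowhere

set_option autoImplicit false

open Set Topology

namespace Pool.Agent.Helper71.TwoPt

/-- Between two points where a continuous function takes different values, a dense open set
contains a nondegenerate closed interval on which the values are strictly between. -/
theorem exists_interval {f : ℝ → ℝ} (hf : Continuous f) {a b p q : ℝ} (hp : p ∈ Icc a b)
    (hq : q ∈ Icc a b) (hpq : f p < f q) {V : Set ℝ} (hV : IsOpen V) (hVd : Dense V) :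
    ∃ a' b' : ℝ, a' < b' ∧ Icc a' b' ⊆ Icc a b ∧ Icc a' b' ⊆ V ∧
      ∀ s ∈ Icc a' b', f p < f s ∧ f s < f q := by
  have hne : p ≠ q := fun h => by rw [h] at hpq; exact lt_irrefl _ hpq
  set W : Set ℝ := Ioo (min p q) (max p q) ∩ f ⁻¹' Ioo (f p) (f q) with hW
  have hWo : IsOpen W := isOpen_Ioo.inter (isOpen_Ioo.preimage hf)
  have hWne : W.Nonempty := by
    have himg := intermediate_value_uIcc (f := f) (a := p) (b := q) hf.continuousOn
    have hmid : (f p + f q) / 2 ∈ uIcc (f p) (f q) := by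
      rw [uIcc_of_le hpq.le]
      constructor <;> linarith
    obtain ⟨s, hs, hfs⟩ := himg hmid
    refine ⟨s, ?_, ?_⟩
    · have hsp : s ≠ p := by rintro rfl; linarith
      have hsq : s ≠ q := by rintro rfl; linarith
      rw [mem_uIcc] at hs
      rcases hs with hs | hs
      · exact ⟨lt_of_le_of_lt (min_le_left _ _) (lt_of_le_of_ne hs.1 hsp.symm),
          lt_of_lt_of_le (lt_of_le_of_ne hs.2 hsq) (le_max_right _ _)⟩
      · exact ⟨lt_of_le_of_lt (min_le_right _ _) (lt_of_le_of_ne hs.1 hsq.symm),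
          lt_of_lt_of_le (lt_of_le_of_ne hs.2 hsp) (le_max_left _ _)⟩
    · show f p < f s ∧ f s < f q
      rw [hfs]
      constructor <;> linarith
  obtain ⟨s, hsW, hsV⟩ := hVd.inter_open_nonempty W hWo hWne
  obtain ⟨δ, hδ, hball⟩ := Metric.isOpen_iff.1 (hWo.inter hV) s ⟨hsW, hsV⟩
  have hin : ∀ u ∈ Icc s (s + δ / 2), u ∈ W ∩ V := by
    intro u hu
    apply hball
    rw [Metric.mem_ball, Real.dist_eq, abs_of_nonneg (by linarith [hu.1])]
    linarith [hu.2]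
  refine ⟨s, s + δ / 2, by linarith, ?_, fun u hu => (hin u hu).2, fun u hu => (hin u hu).1.2⟩
  intro u hu
  have h := (hin u hu).1.1
  exact ⟨(le_min hp.1 hq.1).trans h.1.le, h.2.le.trans (max_le hp.2 hq.2)⟩

/-- A continuous function with an interior maximum cannot be injective on a dense `G_δ`. -/
theorem no_injective_max {f : ℝ → ℝ} (hf : Continuous f) {α t β : ℝ} (h1 : α < t) (h2 : t < β)
    (hmax : ∀ s ∈ Icc α β, f s ≤ f t) {V : ℕ → Set ℝ} (hVo : ∀ n, IsOpen (V n))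
    (hVd : Dense (⋂ n, V n))
    (hinj : ∀ s ∈ Icc α β, ∀ s' ∈ Icc α β, (∀ n, s ∈ V n) → (∀ n, s' ∈ V n) → f s = f s' →
      s = s') : False := by
  have hVdn : ∀ n, Dense (V n) := fun n => hVd.mono (iInter_subset _ n)
  have hnc : ∀ a b : ℝ, a < b → Icc a b ⊆ Icc α β → ∃ p ∈ Icc a b, ∃ q ∈ Icc a b, f p < f q := by
    intro a b hab hsub
    obtain ⟨s, hs, hsV⟩ := hVd.inter_open_nonempty (Ioo a ((a + b) / 2)) isOpen_Ioo
      (nonempty_Ioo.2 (by linarith))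
    obtain ⟨s', hs', hs'V⟩ := hVd.inter_open_nonempty (Ioo ((a + b) / 2) b) isOpen_Ioo
      (nonempty_Ioo.2 (by linarith))
    have hsI : s ∈ Icc a b := ⟨hs.1.le, by linarith [hs.2]⟩
    have hs'I : s' ∈ Icc a b := ⟨by linarith [hs'.1], hs'.2.le⟩
    have hne : f s ≠ f s' := by
      intro h
      have := hinj s (hsub hsI) s' (hsub hs'I) (mem_iInter.1 hsV) (mem_iInter.1 hs'V) h
      linarith [hs.2, hs'.1]
    rcases lt_or_gt_of_ne hne with h | h
    · exact ⟨s, hsI, s', hs'I, h⟩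
    · exact ⟨s', hs'I, s, hsI, h⟩
  -- one refinement step
  have hstep : ∀ (n : ℕ) (a b c d : ℝ), c < d → Icc a b ⊆ Icc α β → Icc c d ⊆ Icc α β →
      f '' Icc c d ⊆ f '' Icc a b → ∃ a' b' c' d' : ℝ, a' < b' ∧ c' < d' ∧ Icc a' b' ⊆ Icc a b ∧
        Icc a' b' ⊆ V n ∧ Icc c' d' ⊆ Icc c d ∧ Icc c' d' ⊆ V n ∧
        f '' Icc c' d' ⊆ f '' Icc a' b' := by
    intro n a b c d hcd hab hcd' hsub
    obtain ⟨p, hp, q, hq, hpq⟩ := hnc c d hcd hcd'
    obtain ⟨p₁, hp₁, hfp⟩ := hsub (mem_image_of_mem f hp)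
    obtain ⟨q₁, hq₁, hfq⟩ := hsub (mem_image_of_mem f hq)
    obtain ⟨a', b', hab', hI1, hI2, hI3⟩ := exists_interval hf hp₁ hq₁ (by rw [hfp, hfq]; exact hpq)
      (hVo n) (hVdn n)
    obtain ⟨p₂, hp₂, q₂, hq₂, hpq₂⟩ := hnc a' b' hab' (hI1.trans hab)
    -- points of `[c, d]` with the values `f p₂ < f q₂`
    have hivt : ∀ y, f p ≤ y → y ≤ f q → ∃ s ∈ Icc c d, f s = y := by
      intro y hy1 hy2
      have himg := intermediate_value_uIcc (f := f) (a := p) (b := q) hf.continuousOn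
      have : y ∈ uIcc (f p) (f q) := by rw [uIcc_of_le hpq.le]; exact ⟨hy1, hy2⟩
      obtain ⟨s, hs, hfs⟩ := himg this
      exact ⟨s, (uIcc_subset_Icc hp hq) hs, hfs⟩
    have e1 := hI3 p₂ hp₂
    have e2 := hI3 q₂ hq₂
    rw [hfp, hfq] at e1 e2
    obtain ⟨p₃, hp₃, hfp₃⟩ := hivt (f p₂) e1.1.le e1.2.le
    obtain ⟨q₃, hq₃, hfq₃⟩ := hivt (f q₂) e2.1.le e2.2.le
    obtain ⟨c', d', hcd'', hJ1, hJ2, hJ3⟩ := exists_interval hf hp₃ hq₃
      (by rw [hfp₃, hfq₃]; exact hpq₂) (hVo n) (hVdn n)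
    refine ⟨a', b', c', d', hab', hcd'', hI1, hI2, hJ1, hJ2, ?_⟩
    rintro _ ⟨s, hs, rfl⟩
    have := hJ3 s hs
    rw [hfp₃, hfq₃] at this
    have himg := intermediate_value_uIcc (f := f) (a := p₂) (b := q₂) hf.continuousOn
    have hmem : f s ∈ uIcc (f p₂) (f q₂) := by
      rw [uIcc_of_le hpq₂.le]; exact ⟨this.1.le, this.2.le⟩
    obtain ⟨u, hu, hfu⟩ := himg hmem
    exact ⟨u, (uIcc_subset_Icc hp₂ hq₂) hu, hfu⟩
  -- the initial pair of intervals
  obtain ⟨s₁, hs₁, hs₁f⟩ : ∃ s₁ ∈ Icc α t, f s₁ < f t := by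
    obtain ⟨p, hp, q, hq, hpq⟩ := hnc α t h1 (Icc_subset_Icc le_rfl h2.le)
    exact ⟨p, hp, lt_of_lt_of_le hpq (hmax q ⟨hq.1, hq.2.trans h2.le⟩)⟩
  obtain ⟨η, hη, hηf⟩ : ∃ η : ℝ, 0 < η ∧ ∀ s ∈ Icc t (t + η), f s₁ < f s ∧ s ≤ β := by
    have hev : ∀ᶠ s in 𝓝 t, f s₁ < f s ∧ s < β :=
      (hf.continuousAt.eventually (lt_mem_nhds hs₁f)).and (gt_mem_nhds h2)
    obtain ⟨ε, hε, hball⟩ := Metric.eventually_nhds_iff.1 hev
    refine ⟨ε / 2, by linarith, fun s hs => ?_⟩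
    have : dist s t < ε := by
      rw [Real.dist_eq, abs_of_nonneg (by linarith [hs.1])]
      linarith [hs.2]
    exact ⟨(hball this).1, (hball this).2.le⟩
  set P : ℝ × ℝ × ℝ × ℝ → Prop := fun q => q.2.2.1 < q.2.2.2 ∧ Icc q.1 q.2.1 ⊆ Icc α β ∧
    Icc q.2.2.1 q.2.2.2 ⊆ Icc α β ∧ f '' Icc q.2.2.1 q.2.2.2 ⊆ f '' Icc q.1 q.2.1 with hP
  have hstep' : ∀ (n : ℕ) (q : {q // P q}), ∃ q' : {q // P q},
      Icc q'.1.1 q'.1.2.1 ⊆ Icc q.1.1 q.1.2.1 ∧ Icc q'.1.1 q'.1.2.1 ⊆ V n ∧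
      Icc q'.1.2.2.1 q'.1.2.2.2 ⊆ Icc q.1.2.2.1 q.1.2.2.2 ∧
      Icc q'.1.2.2.1 q'.1.2.2.2 ⊆ V n := by
    rintro n ⟨⟨a, b, c, d⟩, hcd, hab, hcd', hsub⟩
    obtain ⟨a', b', c', d', _, g2, g3, g4, g5, g6, g7⟩ := hstep n a b c d hcd hab hcd' hsub
    exact ⟨⟨(a', b', c', d'), g2, g3.trans hab, g5.trans hcd', g7⟩, g3, g4, g5, g6⟩
  choose next hnext using hstep'
  have hstart : P (s₁, t, t + η / 2, t + η) := by
    refine ⟨by simp only; linarith, Icc_subset_Icc hs₁.1 h2.le, ?_, ?_⟩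
    · intro s hs
      simp only [mem_Icc] at hs
      exact ⟨by linarith [hs.1], (hηf s ⟨by linarith [hs.1], hs.2⟩).2⟩
    · rintro _ ⟨s, hs, rfl⟩
      simp only [mem_Icc] at hs
      have hs' : s ∈ Icc t (t + η) := ⟨by linarith [hs.1], hs.2⟩
      have himg := intermediate_value_Icc (f := f) hs₁.2 hf.continuousOn
      obtain ⟨u, hu, hfu⟩ := himg (show f s ∈ Icc (f s₁) (f t) from ⟨(hηf s hs').1.le,
        hmax s ⟨h1.le.trans hs'.1, (hηf s hs').2⟩⟩)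
      exact ⟨u, hu, hfu⟩
  set sq : ℕ → {q // P q} := fun n => Nat.rec ⟨_, hstart⟩ (fun n q => next n q) n with hsq
  have hsq1 : ∀ n, sq (n + 1) = next n (sq n) := fun n => rfl
  set T : ℕ → Set (ℝ × ℝ) := fun n => (Icc (sq n).1.1 (sq n).1.2.1 ×ˢ
    Icc (sq n).1.2.2.1 (sq n).1.2.2.2) ∩ {p | f p.1 = f p.2} with hT
  have hTcl : ∀ n, IsClosed (T n) := fun n =>
    (isClosed_Icc.prod isClosed_Icc).inter (isClosed_eq (by fun_prop) (by fun_prop))
  have hTsub : ∀ n, T (n + 1) ⊆ T n := by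
    intro n p hp
    have h := hnext n (sq n)
    rw [← hsq1] at h
    exact ⟨⟨h.1 hp.1.1, h.2.2.1 hp.1.2⟩, hp.2⟩
  have hTne : ∀ n, (T n).Nonempty := by
    intro n
    obtain ⟨g1, g2, g3, g4⟩ := (sq n).2
    obtain ⟨u, hu, hfu⟩ := g4 (mem_image_of_mem f (left_mem_Icc.2 g1.le))
    exact ⟨(u, (sq n).1.2.2.1), ⟨hu, left_mem_Icc.2 g1.le⟩, hfu⟩
  obtain ⟨⟨s, s'⟩, hss'⟩ := IsCompact.nonempty_iInter_of_sequence_nonempty_isCompact_isClosed T
    hTsub hTne ((isCompact_Icc.prod isCompact_Icc).inter_right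
      (isClosed_eq (by fun_prop) (by fun_prop))) hTcl
  rw [mem_iInter] at hss'
  have hsV : ∀ n, s ∈ V n ∧ s' ∈ V n := by
    intro n
    have h := hnext n (sq n)
    rw [← hsq1] at h
    exact ⟨h.2.1 (hss' (n + 1)).1.1, h.2.2.2 (hss' (n + 1)).1.2⟩
  have h0 := hss' 0
  have hI := (sq 0).2.2.1 h0.1.1
  have hJ := (sq 0).2.2.2.1 h0.1.2
  have heq := hinj s hI s' hJ (fun n => (hsV n).1) (fun n => (hsV n).2) h0.2
  have hs1 : s ≤ t := h0.1.1.2
  have hs2 : t + η / 2 ≤ s' := h0.1.2.1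
  linarith

/-- A two-point set contains comeagerly many points of no subarc of an arc. -/
theorem IsTwoPoint.not_residual_arc {A : Set (ℝ × ℝ)} (hA : IsTwoPoint A) {γ : ℝ → ℝ × ℝ}
    {α β : ℝ} (hc : ContinuousOn γ (Icc α β)) (hi : InjOn γ (Icc α β)) (hαβ : α < β)
    (hm : IsMeagre {t | t ∈ Ioo α β ∧ γ t ∉ A}) : False := by
  obtain ⟨G, hGs, hGδ, hGd⟩ := mem_residual.1 hm
  obtain ⟨V, hVo, hV⟩ := hGδ.eq_iInter_nat
  have hne : γ ((2 * α + β) / 3) ≠ γ ((α + 2 * β) / 3) := fun h => by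
    have := hi ⟨by linarith, by linarith⟩ ⟨by linarith, by linarith⟩ h
    linarith
  have hsub0 : Icc ((2 * α + β) / 3) ((α + 2 * β) / 3) ⊆ Icc α β :=
    Icc_subset_Icc (by linarith) (by linarith)
  obtain ⟨z, hz, α', t, β', h1, h2, h3, h4, f, hf, hft, hfle, hγz, hpar⟩ :=
    hA.exists_extremum (γ := γ) (α := (2 * α + β) / 3) (β := (α + 2 * β) / 3) (by linarith)
      (hc.mono hsub0) hne
  have hα'β' : α' ≤ β' := (h2.trans h3).le
  set F : ℝ → ℝ := fun s => f (max α' (min s β')) with hF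
  have hFc : Continuous F := hf.comp_continuous (by fun_prop) fun s =>
    ⟨le_max_left _ _, max_le hα'β' (min_le_right _ _)⟩
  have hFf : ∀ s ∈ Icc α' β', F s = f s := fun s hs => by
    simp only [hF]; rw [min_eq_left hs.2, max_eq_right hs.1]
  have ht : t ∈ Icc α' β' := ⟨h2.le, h3.le⟩
  refine no_injective_max hFc h2 h3 (fun s hs => ?_) hVo (hV ▸ hGd) ?_
  · rw [hFf s hs, hFf t ht, hft]
    exact hfle s hs
  · intro s hs s' hs' hsV hs'V h
    rw [hFf s hs, hFf s' hs'] at h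
    have hmem : ∀ u ∈ Icc α' β', (∀ n, u ∈ V n) → γ u ∈ A := by
      intro u hu huV
      by_contra hcon
      have huG : u ∈ G := by rw [hV]; exact mem_iInter.2 huV
      exact hGs huG ⟨⟨by linarith [hu.1], by linarith [hu.2]⟩, hcon⟩
    exact hi (hsub0 ⟨h1.trans hs.1, hs.2.trans h4⟩) (hsub0 ⟨h1.trans hs'.1, hs'.2.trans h4⟩)
      (hA.eq_of_parallel hz (hmem s hs hsV) (hmem s' hs' hs'V) (hγz s hs) (hγz s' hs')
        (hpar s hs s' hs' h))

/-- The parameters at which an arc lies in a Borel subset of a two-point set form a meager set. -/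
theorem IsTwoPoint.isMeagre_preimage {A S : Set (ℝ × ℝ)} (hA : IsTwoPoint A) (hSA : S ⊆ A)
    (hS : MeasurableSet S) {γ : ℝ → ℝ × ℝ} (hc : Continuous γ) (hi : Function.Injective γ) :
    IsMeagre (γ ⁻¹' S) := by
  obtain ⟨u, hu, hSu⟩ := (hc.measurable hS).residualEq_isOpen
  rcases u.eq_empty_or_nonempty with rfl | ⟨t, ht⟩
  · have : ∀ᶠ x in residual ℝ, x ∉ γ ⁻¹' S := by
      filter_upwards [hSu] with x hx hxS
      have : x ∈ (∅ : Set ℝ) := by
        have h := hx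
        rw [eq_iff_iff] at h
        exact h.1 hxS
      exact this
    exact this
  · exfalso
    obtain ⟨δ, hδ, hball⟩ := Metric.isOpen_iff.1 hu t ht
    refine hA.not_residual_arc (α := t - δ) (β := t + δ) hc.continuousOn hi.injOn (by linarith) ?_
    have : ∀ᶠ x in residual ℝ, x ∉ {x | x ∈ Ioo (t - δ) (t + δ) ∧ γ x ∉ A} := by
      filter_upwards [hSu] with x hx hxm
      have hxu : x ∈ u := by
        apply hball
        rw [Real.ball_eq_Ioo]
        exact hxm.1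
      have h := hx
      rw [eq_iff_iff] at h
      exact hxm.2 (hSA (h.2 hxu))
    exact this

end Pool.Agent.Helper71.TwoPt
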