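import Mathlib

set_option autoImplicit false

open Set

namespace Pool.Agent.Helper71.TwoPt

/-- `A` is a two-point set: it meets every line `a x + b y = c` of the plane (`a`, `b` not both
zero) in exactly two points. -/
def IsTwoPoint (A : Set (ℝ × ℝ)) : Prop :=
  ∀ a b c : ℝ, (a ≠ 0 ∨ b ≠ 0) → (A ∩ {p : ℝ × ℝ | a * p.1 + b * p.2 = c}).ncard = 2

variable {A : Set (ℝ × ℝ)}

theorem IsTwoPoint.exists_pair (hA : IsTwoPoint A) (a b c : ℝ) (hab : a ≠ 0 ∨ b ≠ 0) :
    ∃ p q : ℝ × ℝ, p ≠ q ∧ A ∩ {p : ℝ × ℝ | a * p.1 + b * p.2 = c} = {p, q} := by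
  have h := hA a b c hab
  rw [Set.ncard_eq_two] at h
  obtain ⟨p, q, hpq, h⟩ := h
  exact ⟨p, q, hpq, h⟩

/-- No three distinct points on a line. -/
theorem IsTwoPoint.eq_of_line (hA : IsTwoPoint A) {a b c : ℝ} (hab : a ≠ 0 ∨ b ≠ 0)
    {p q r : ℝ × ℝ} (hp : p ∈ A) (hq : q ∈ A) (hr : r ∈ A)
    (hpL : a * p.1 + b * p.2 = c) (hqL : a * q.1 + b * q.2 = c) (hrL : a * r.1 + b * r.2 = c)
    (hpq : p ≠ q) (hpr : p ≠ r) : q = r := by
  obtain ⟨u, v, huv, h⟩ := hA.exists_pair a b c hab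
  have h1 : p ∈ ({u, v} : Set (ℝ × ℝ)) := h ▸ ⟨hp, hpL⟩
  have h2 : q ∈ ({u, v} : Set (ℝ × ℝ)) := h ▸ ⟨hq, hqL⟩
  have h3 : r ∈ ({u, v} : Set (ℝ × ℝ)) := h ▸ ⟨hr, hrL⟩
  simp only [mem_insert_iff, mem_singleton_iff] at h1 h2 h3
  rcases h1 with h1 | h1 <;> rcases h2 with h2 | h2 <;> rcases h3 with h3 | h3 <;>
    subst_vars <;> first | rfl | exact absurd rfl hpq | exact absurd rfl hpr

/-- If `z, p, q ∈ A`, `p ≠ z`, `q ≠ z` and `p - z`, `q - z` are parallel then `p = q`. -/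
theorem IsTwoPoint.eq_of_parallel (hA : IsTwoPoint A) {z p q : ℝ × ℝ} (hz : z ∈ A) (hp : p ∈ A)
    (hq : q ∈ A) (hzp : p ≠ z) (hzq : q ≠ z)
    (h : (p.1 - z.1) * (q.2 - z.2) = (p.2 - z.2) * (q.1 - z.1)) : p = q := by
  have hab : (p.2 - z.2) ≠ 0 ∨ (-(p.1 - z.1)) ≠ 0 := by
    by_contra hcon
    push Not at hcon
    apply hzp
    ext
    · linarith [hcon.2]
    · linarith [hcon.1]
  refine hA.eq_of_line (c := (p.2 - z.2) * z.1 + (-(p.1 - z.1)) * z.2) hab hz hp hq rfl ?_ ?_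
    hzp.symm hzq.symm
  · ring
  · linear_combination -h

/-- The second point of `A` on a line through a point of the plane. -/
theorem IsTwoPoint.exists_other (hA : IsTwoPoint A) {a b c : ℝ} (hab : a ≠ 0 ∨ b ≠ 0)
    (x : ℝ × ℝ) : ∃ z ∈ A, z ≠ x ∧ a * z.1 + b * z.2 = c := by
  obtain ⟨u, v, huv, h⟩ := hA.exists_pair a b c hab
  have hu : u ∈ A ∩ {p : ℝ × ℝ | a * p.1 + b * p.2 = c} := by rw [h]; simp
  have hv : v ∈ A ∩ {p : ℝ × ℝ | a * p.1 + b * p.2 = c} := by rw [h]; simp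
  by_cases hux : u = x
  · exact ⟨v, hv.1, fun hvx => huv (hux.trans hvx.symm), hv.2⟩
  · exact ⟨u, hu.1, hux, hu.2⟩

/-- A line contains a point of `A`. -/
theorem IsTwoPoint.exists_mem (hA : IsTwoPoint A) {a b c : ℝ} (hab : a ≠ 0 ∨ b ≠ 0) :
    ∃ z ∈ A, a * z.1 + b * z.2 = c := by
  obtain ⟨z, hz, _, h⟩ := hA.exists_other (c := c) hab 0
  exact ⟨z, hz, h⟩

/-- The extremum lemma: for an injective path there are a point `z ∈ A` off the path near an
interior parameter `t₃`, and a continuous function `f` near `t₃`, vanishing at `t₃` and nowhere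
positive, such that `f s = f t` forces `z, γ s, γ t` to be collinear. -/
theorem IsTwoPoint.exists_extremum (hA : IsTwoPoint A) {γ : ℝ → ℝ × ℝ} {α β : ℝ} (hαβ : α < β)
    (hc : ContinuousOn γ (Icc α β)) (hne : γ α ≠ γ β) :
    ∃ z ∈ A, ∃ α' t β' : ℝ, α ≤ α' ∧ α' < t ∧ t < β' ∧ β' ≤ β ∧ ∃ f : ℝ → ℝ,
      ContinuousOn f (Icc α' β') ∧ f t = 0 ∧ (∀ s ∈ Icc α' β', f s ≤ 0) ∧
      (∀ s ∈ Icc α' β', γ s ≠ z) ∧
      ∀ s ∈ Icc α' β', ∀ s' ∈ Icc α' β', f s = f s' →
        ((γ s).1 - z.1) * ((γ s').2 - z.2) = ((γ s).2 - z.2) * ((γ s').1 - z.1) := by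
  set a : ℝ := (γ β).2 - (γ α).2 with ha
  set b : ℝ := -((γ β).1 - (γ α).1) with hb
  have hab : a ≠ 0 ∨ b ≠ 0 := by
    by_contra hcon
    push Not at hcon
    apply hne
    ext
    · linarith [hcon.2]
    · linarith [hcon.1]
  set ℓ : ℝ → ℝ := fun t => a * (γ t).1 + b * (γ t).2 with hℓ
  have hℓc : ContinuousOn ℓ (Icc α β) :=
    (continuousOn_const.mul (continuous_fst.comp_continuousOn hc)).add
      (continuousOn_const.mul (continuous_snd.comp_continuousOn hc))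
  have hend : ℓ α = ℓ β := by simp only [hℓ, ha, hb]; ring
  obtain ⟨t, ht, hext⟩ := exists_Ioo_extr_on_Icc hαβ hℓc hend
  obtain ⟨z, hzA, hzne, hzL⟩ := hA.exists_other (c := ℓ t) hab (γ t)
  -- the transversal coordinate
  set v : ℝ → ℝ := fun s => (-b * (γ s).1 + a * (γ s).2) - (-b * z.1 + a * z.2) with hv
  have hvc : ContinuousOn v (Icc α β) :=
    ((continuousOn_const.mul (continuous_fst.comp_continuousOn hc)).add
      (continuousOn_const.mul (continuous_snd.comp_continuousOn hc))).sub continuousOn_const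
  have hdet : a * a + b * b ≠ 0 := by
    rcases hab with h | h
    · have : 0 < a * a := mul_self_pos.2 h
      nlinarith [mul_self_nonneg b]
    · have : 0 < b * b := mul_self_pos.2 h
      nlinarith [mul_self_nonneg a]
  have hvt : v t ≠ 0 := by
    intro h0
    apply hzne
    have e1 : a * z.1 + b * z.2 = a * (γ t).1 + b * (γ t).2 := hzL
    have e2 : -b * z.1 + a * z.2 = -b * (γ t).1 + a * (γ t).2 := by
      simp only [hv] at h0; linarith
    have h1 : (a * a + b * b) * (z.1 - (γ t).1) = 0 := by linear_combination a * e1 - b * e2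
    have h2 : (a * a + b * b) * (z.2 - (γ t).2) = 0 := by linear_combination b * e1 + a * e2
    have h1' := (mul_eq_zero.1 h1).resolve_left hdet
    have h2' := (mul_eq_zero.1 h2).resolve_left hdet
    ext
    · linarith
    · linarith
  -- a neighbourhood where `v ≠ 0`, with constant sign
  obtain ⟨α', β', hα', hα't, htβ', hβ', hsgn⟩ : ∃ α' β' : ℝ, α ≤ α' ∧ α' < t ∧ t < β' ∧ β' ≤ β ∧
      ∀ s ∈ Icc α' β', 0 < v s * v t := by
    have hcat : ContinuousAt (fun s => v s * v t) t :=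
      (hvc.continuousAt (Icc_mem_nhds ht.1 ht.2)).mul continuousAt_const
    have hpos : 0 < v t * v t := mul_self_pos.2 hvt
    have hev : ∀ᶠ s in nhds t, 0 < v s * v t := hcat.eventually (lt_mem_nhds hpos)
    obtain ⟨ε, hε, hball⟩ := Metric.eventually_nhds_iff.1 hev
    refine ⟨max α (t - ε / 2), min β (t + ε / 2), le_max_left _ _, max_lt ht.1 (by linarith),
      lt_min ht.2 (by linarith), min_le_left _ _, ?_⟩
    intro s hs
    apply hball
    rw [Real.dist_eq, abs_lt]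
    have h1 := (max_le_iff.1 hs.1).2
    have h2 := (le_min_iff.1 hs.2).2
    constructor <;> linarith
  have hsub : Icc α' β' ⊆ Icc α β := Icc_subset_Icc hα' hβ'
  have hvne : ∀ s ∈ Icc α' β', v s ≠ 0 := fun s hs h0 => by
    have := hsgn s hs; rw [h0, zero_mul] at this; exact lt_irrefl _ this
  have hγz : ∀ s ∈ Icc α' β', γ s ≠ z := by
    intro s hs h0
    apply hvne s hs
    simp only [hv, h0]; ring
  have hpar : ∀ s ∈ Icc α' β', ∀ s' ∈ Icc α' β', (ℓ s - ℓ t) * v s' = (ℓ s' - ℓ t) * v s →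
      ((γ s).1 - z.1) * ((γ s').2 - z.2) = ((γ s).2 - z.2) * ((γ s').1 - z.1) := by
    intro s _ s' _ h
    have hz' : ℓ t = a * z.1 + b * z.2 := hzL.symm
    have key : (a * a + b * b) * (((γ s).1 - z.1) * ((γ s').2 - z.2) -
        ((γ s).2 - z.2) * ((γ s').1 - z.1)) = (ℓ s - ℓ t) * v s' - (ℓ s' - ℓ t) * v s := by
      rw [hz']
      simp only [hv, hℓ]
      ring
    rw [h, sub_self] at key
    have := (mul_eq_zero.1 key).resolve_left hdet
    linarith
  -- choose the sign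
  have hsign : ∃ σ : ℝ, σ ≠ 0 ∧ ∀ s ∈ Icc α' β', σ * ((ℓ s - ℓ t) / v s) ≤ 0 := by
    have hmain : ∀ τ : ℝ, τ ≠ 0 → (∀ s ∈ Icc α β, τ * (ℓ s - ℓ t) ≤ 0) →
        ∀ s ∈ Icc α' β', (τ * v t) * ((ℓ s - ℓ t) / v s) ≤ 0 := by
      intro τ _ hτ s hs
      have h1 := hτ s (hsub hs)
      have h2 := hsgn s hs
      have h3 := hvne s hs
      have : (τ * v t) * ((ℓ s - ℓ t) / v s) = (τ * (ℓ s - ℓ t)) * (v s * v t / (v s * v s)) := by
        field_simp
      rw [this]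
      exact mul_nonpos_of_nonpos_of_nonneg h1 (div_nonneg h2.le (mul_self_nonneg _))
    rcases hext with hmin | hmax
    · refine ⟨-1 * v t, by simpa using hvt, hmain (-1) (by norm_num) ?_⟩
      intro s hs
      have := hmin hs
      simp only [mem_ofPred_eq] at this
      linarith
    · refine ⟨1 * v t, by simpa using hvt, hmain 1 (by norm_num) ?_⟩
      intro s hs
      have := hmax hs
      simp only [mem_ofPred_eq] at this
      linarith
  obtain ⟨σ, hσ, hσle⟩ := hsign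
  refine ⟨z, hzA, α', t, β', hα', hα't, htβ', hβ', fun s => σ * ((ℓ s - ℓ t) / v s), ?_, ?_, hσle,
    hγz, ?_⟩
  · exact continuousOn_const.mul (((hℓc.mono hsub).sub continuousOn_const).div (hvc.mono hsub) hvne)
  · simp
  · intro s hs s' hs' h
    apply hpar s hs s' hs'
    have h' := mul_left_cancel₀ hσ h
    rw [div_eq_div_iff (hvne s hs) (hvne s' hs')] at h'
    exact h'

/-- A two-point set contains no arc. -/
theorem IsTwoPoint.no_arc (hA : IsTwoPoint A) {γ : ℝ → ℝ × ℝ} {α β : ℝ} (hαβ : α < β)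
    (hc : ContinuousOn γ (Icc α β)) (hi : InjOn γ (Icc α β)) (hm : MapsTo γ (Icc α β) A) :
    False := by
  have hne : γ α ≠ γ β := fun h =>
    hαβ.ne (hi (left_mem_Icc.2 hαβ.le) (right_mem_Icc.2 hαβ.le) h)
  obtain ⟨z, hz, α', t, β', h1, h2, h3, h4, f, hf, hft, hfle, hγz, hpar⟩ :=
    hA.exists_extremum hαβ hc hne
  have hsub : Icc α' β' ⊆ Icc α β := Icc_subset_Icc h1 h4
  have hinj : InjOn f (Icc α' β') := by
    intro s hs s' hs' h
    exact hi (hsub hs) (hsub hs') (hA.eq_of_parallel hz (hm (hsub hs)) (hm (hsub hs'))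
      (hγz s hs) (hγz s' hs') (hpar s hs s' hs' h))
  have hα'β' : α' ≤ β' := (h2.trans h3).le
  have hl : α' ∈ Icc α' β' := left_mem_Icc.2 hα'β'
  have hr : β' ∈ Icc α' β' := right_mem_Icc.2 hα'β'
  have ht : t ∈ Icc α' β' := ⟨h2.le, h3.le⟩
  rcases hf.strictMonoOn_of_injOn_Icc' hα'β' hinj with hmono | hanti
  · have := hmono ht hr h3
    have := hfle β' hr
    linarith
  · have := hanti hl ht h2
    have := hfle α' hl
    linarith

end Pool.Agent.Helper71.TwoPt
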