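import Pool.Agent.Helper71.TwoPt.Basic

set_option autoImplicit false

open Set Topology

namespace Pool.Agent.Helper71.TwoPt

/-- The non-vertical lines `y = m x + c`, as pairs `(m, c)`, which meet `S`. -/
def Hit (S : Set (ℝ × ℝ)) : Set (ℝ × ℝ) := {L | ∃ p ∈ S, p.2 = L.1 * p.1 + L.2}

theorem Hit.mono {S T : Set (ℝ × ℝ)} (h : S ⊆ T) : Hit S ⊆ Hit T := by
  rintro L ⟨p, hp, hL⟩
  exact ⟨p, h hp, hL⟩

theorem hit_union (S T : Set (ℝ × ℝ)) : Hit (S ∪ T) = Hit S ∪ Hit T := by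
  ext L
  constructor
  · rintro ⟨p, hp | hp, hL⟩
    · exact Or.inl ⟨p, hp, hL⟩
    · exact Or.inr ⟨p, hp, hL⟩
  · rintro (⟨p, hp, hL⟩ | ⟨p, hp, hL⟩)
    · exact ⟨p, Or.inl hp, hL⟩
    · exact ⟨p, Or.inr hp, hL⟩

theorem isClosed_hit {S : Set (ℝ × ℝ)} (hS : IsCompact S) : IsClosed (Hit S) := by
  have : CompactSpace S := isCompact_iff_compactSpace.1 hS
  have h1 : IsClosed {q : S × (ℝ × ℝ) | (q.1 : ℝ × ℝ).2 = q.2.1 * (q.1 : ℝ × ℝ).1 + q.2.2} :=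
    isClosed_eq (by fun_prop) (by fun_prop)
  have h2 := isClosedMap_snd_of_compactSpace (X := S) _ h1
  convert h2 using 1
  ext L
  constructor
  · rintro ⟨p, hp, h⟩
    exact ⟨(⟨p, hp⟩, L), h, rfl⟩
  · rintro ⟨⟨p, L'⟩, h, rfl⟩
    exact ⟨p, p.2, h⟩

variable {A : Set (ℝ × ℝ)}

/-- Compact subsets of a two-point set are totally separated. -/
theorem IsTwoPoint.exists_separation (hA : IsTwoPoint A) {K : Set (ℝ × ℝ)} (hK : IsCompact K)
    (hKA : K ⊆ A) {p q : ℝ × ℝ} (hp : p ∈ K) (hq : q ∈ K) (hpq : p ≠ q) :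
    ∃ F₁ F₂ : Set (ℝ × ℝ), IsCompact F₁ ∧ IsCompact F₂ ∧ F₁ ∪ F₂ = K ∧ Disjoint F₁ F₂ ∧
      p ∈ F₁ ∧ q ∈ F₂ := by
  obtain ⟨R₀, hR₀⟩ := hK.bddAbove_image (f := Prod.fst) continuous_fst.continuousOn
  have hR : ∀ w ∈ K, w.1 < R₀ + 1 := fun w hw => by
    have := hR₀ (mem_image_of_mem _ hw)
    linarith
  obtain ⟨z, hzA, hz⟩ := hA.exists_mem (a := 1) (b := 0) (c := R₀ + 1) (Or.inl one_ne_zero)
  have hz1 : z.1 = R₀ + 1 := by linarith
  set f : ℝ × ℝ → ℝ := fun w => (w.2 - z.2) / (z.1 - w.1) with hf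
  have hden : ∀ w ∈ K, z.1 - w.1 ≠ 0 := fun w hw => by
    have h1 := hR w hw
    rw [← hz1] at h1
    exact (sub_pos.2 h1).ne'
  have hfc : ContinuousOn f K :=
    ((continuous_snd.sub continuous_const).continuousOn).div
      ((continuous_const.sub continuous_fst).continuousOn) hden
  have hfi : InjOn f K := by
    intro w hw w' hw' h
    refine hA.eq_of_parallel hzA (hKA hw) (hKA hw') ?_ ?_ ?_
    · intro h0; apply hden w hw; rw [h0]; ring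
    · intro h0; apply hden w' hw'; rw [h0]; ring
    · simp only [hf] at h
      rw [div_eq_div_iff (hden w hw) (hden w' hw')] at h
      linear_combination h
  have key : ∀ p ∈ K, ∀ q ∈ K, f p < f q → ∃ F₁ F₂ : Set (ℝ × ℝ), IsCompact F₁ ∧ IsCompact F₂ ∧
      F₁ ∪ F₂ = K ∧ Disjoint F₁ F₂ ∧ p ∈ F₁ ∧ q ∈ F₂ := by
    intro p hp q hq hlt
    by_cases h : Icc (f p) (f q) ⊆ f '' K
    · exfalso
      set γ : ℝ → ℝ × ℝ := Function.invFunOn f K with hγ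
      have hγK : ∀ s ∈ f '' K, γ s ∈ K ∧ f (γ s) = s := fun s hs =>
        ⟨Function.invFunOn_mem hs, Function.invFunOn_eq hs⟩
      have hγc : ContinuousOn γ (f '' K) := by
        rw [continuousOn_iff_isClosed]
        intro t ht
        refine ⟨f '' (K ∩ t), ((hK.inter_right ht).image_of_continuousOn
          (hfc.mono inter_subset_left)).isClosed, ?_⟩
        ext s
        constructor
        · rintro ⟨h1, h2⟩
          exact ⟨⟨γ s, ⟨(hγK s h2).1, h1⟩, (hγK s h2).2⟩, h2⟩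
        · rintro ⟨⟨w, ⟨hwK, hwt⟩, hws⟩, h2⟩
          refine ⟨?_, h2⟩
          have : γ s = w := hfi (hγK s h2).1 hwK ((hγK s h2).2.trans hws.symm)
          show γ s ∈ t
          rw [this]; exact hwt
      refine hA.no_arc hlt (hγc.mono h) ?_ ?_
      · intro s hs s' hs' he
        rw [← (hγK s (h hs)).2, ← (hγK s' (h hs')).2, he]
      · intro s hs
        exact hKA (hγK s (h hs)).1
    · rw [not_subset] at h
      obtain ⟨r, hr, hrK⟩ := h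
      refine ⟨K ∩ f ⁻¹' Iic r, K ∩ f ⁻¹' Ici r, ?_, ?_, ?_, ?_, ⟨hp, hr.1⟩, ⟨hq, hr.2⟩⟩
      · exact hK.of_isClosed_subset (hfc.preimage_isClosed_of_isClosed hK.isClosed isClosed_Iic)
          inter_subset_left
      · exact hK.of_isClosed_subset (hfc.preimage_isClosed_of_isClosed hK.isClosed isClosed_Ici)
          inter_subset_left
      · rw [← inter_union_distrib_left, ← preimage_union, Iic_union_Ici, preimage_univ, inter_univ]
      · rw [Set.disjoint_left]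
        rintro w ⟨hwK, hw1⟩ ⟨_, hw2⟩
        exact hrK ⟨w, hwK, le_antisymm hw1 hw2⟩
  rcases lt_or_gt_of_ne (fun h => hpq (hfi hp hq h)) with h | h
  · exact key p hp q hq h
  · obtain ⟨F₁, F₂, h1, h2, h3, h4, h5, h6⟩ := key q hq p hp h
    exact ⟨F₂, F₁, h2, h1, by rw [union_comm]; exact h3, h4.symm, h6, h5⟩

/-- Connected families of lines meeting two disjoint compact parts of a totally separated compact
set, with at most two points on each line, are trivial. -/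
theorem subsingleton_of_isPreconnected {K F₁ F₂ C : Set (ℝ × ℝ)}
    (hsep : ∀ p ∈ K, ∀ q ∈ K, p ≠ q → ∃ G₁ G₂ : Set (ℝ × ℝ), IsCompact G₁ ∧ IsCompact G₂ ∧
      G₁ ∪ G₂ = K ∧ Disjoint G₁ G₂ ∧ p ∈ G₁ ∧ q ∈ G₂)
    (hF₁ : IsCompact F₁) (hF₂ : IsCompact F₂) (hF₁K : F₁ ⊆ K) (hF₂K : F₂ ⊆ K)
    (hdisj : Disjoint F₁ F₂) (hC : IsPreconnected C)
    (htwo : ∀ L ∈ C, ∀ p ∈ K, ∀ q ∈ K, ∀ r ∈ K, p.2 = L.1 * p.1 + L.2 → q.2 = L.1 * q.1 + L.2 →
      r.2 = L.1 * r.1 + L.2 → p = q ∨ p = r ∨ q = r)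
    (hC₁ : C ⊆ Hit F₁) (hC₂ : C ⊆ Hit F₂) : C.Subsingleton := by
  have main : ∀ F F' : Set (ℝ × ℝ), IsCompact F → F ⊆ K → F' ⊆ K → Disjoint F F' → C ⊆ Hit F →
      C ⊆ Hit F' → ∀ L ∈ C, ∀ L' ∈ C, ∀ w ∈ F, ∀ w' ∈ F, w.2 = L.1 * w.1 + L.2 →
      w'.2 = L'.1 * w'.1 + L'.2 → w = w' := by
    intro F F' hF hFK hF'K hd hCF hCF' L hL L' hL' w hw w' hw' hwL hwL'
    by_contra hne
    obtain ⟨G₁, G₂, hG₁, hG₂, hG, hGd, hw1, hw2⟩ := hsep w (hFK hw) w' (hFK hw') hne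
    have hcov : C ⊆ Hit (F ∩ G₁) ∪ Hit (F ∩ G₂) := by
      rw [← hit_union, ← inter_union_distrib_left, hG, inter_eq_left.2 hFK]
      exact hCF
    obtain ⟨M, hMC, ⟨u, hu, huM⟩, ⟨v, hv, hvM⟩⟩ := isPreconnected_closed_iff.1 hC _ _
      (isClosed_hit (hF.inter_right hG₁.isClosed)) (isClosed_hit (hF.inter_right hG₂.isClosed))
      hcov ⟨L, hL, w, ⟨hw, hw1⟩, hwL⟩ ⟨L', hL', w', ⟨hw', hw2⟩, hwL'⟩
    obtain ⟨x, hx, hxM⟩ := hCF' hMC
    rcases htwo M hMC u (hFK hu.1) v (hFK hv.1) x (hF'K hx) huM hvM hxM with h | h | h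
    · exact Set.disjoint_left.1 hGd hu.2 (h ▸ hv.2)
    · exact Set.disjoint_left.1 hd hu.1 (h ▸ hx)
    · exact Set.disjoint_left.1 hd hv.1 (h ▸ hx)
  intro L hL L' hL'
  obtain ⟨w₁, hw₁, h1⟩ := hC₁ hL
  obtain ⟨w₂, hw₂, h2⟩ := hC₂ hL
  obtain ⟨w₁', hw₁', h1'⟩ := hC₁ hL'
  obtain ⟨w₂', hw₂', h2'⟩ := hC₂ hL'
  have e1 := main F₁ F₂ hF₁ hF₁K hF₂K hdisj hC₁ hC₂ L hL L' hL' w₁ hw₁ w₁' hw₁' h1 h1'
  have e2 := main F₂ F₁ hF₂ hF₂K hF₁K hdisj.symm hC₂ hC₁ L hL L' hL' w₂ hw₂ w₂' hw₂' h2 h2'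
  subst e1 e2
  have hx : w₁.1 ≠ w₂.1 := by
    intro hx
    have : w₁ = w₂ := by
      ext
      · exact hx
      · rw [h1, h2, hx]
    exact Set.disjoint_left.1 hdisj hw₁ (this ▸ hw₂)
  have hm : (L.1 - L'.1) * (w₁.1 - w₂.1) = 0 := by linear_combination h1' - h1 - h2' + h2
  have hm' : L.1 = L'.1 := by
    rcases mul_eq_zero.1 hm with h | h
    · linarith
    · exact absurd (by linarith) hx
  ext
  · exact hm'
  · have := h1.symm.trans h1'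
    rw [hm'] at this
    linarith

end Pool.Agent.Helper71.TwoPt
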