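import Pool.Agent.Helper71.TwoPt.Basic

set_option autoImplicit false

open Set Topology Filter

namespace Pool.Agent.Helper71.TwoPt

/-- **The intersection map of a two-point set is nowhere continuous.** -/
theorem IsTwoPoint.discontinuous {A : Set (ℝ × ℝ)} (hA : IsTwoPoint A) {a b c : ℝ}
    (hab : a ≠ 0 ∨ b ≠ 0) {p q : ℝ × ℝ} (hpq : p ≠ q) (hpL : a * p.1 + b * p.2 = c)
    (hcont : ∀ ε > 0, ∀ᶠ L : ℝ × ℝ × ℝ in 𝓝 (a, b, c), ∃ p' ∈ A, ∃ q' ∈ A,
      L.1 * p'.1 + L.2.1 * p'.2 = L.2.2 ∧ L.1 * q'.1 + L.2.1 * q'.2 = L.2.2 ∧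
      dist p' p < ε ∧ dist q' q < ε) : False := by
  set τ : ℝ × ℝ → ℝ := fun w => a * w.1 + b * w.2 with hτ
  set σ : ℝ × ℝ → ℝ := fun w => -b * w.1 + a * w.2 with hσ
  set D : ℝ := a * a + b * b with hD
  have hDpos : 0 < D := by
    rcases hab with h | h
    · have := mul_self_pos.2 h; nlinarith [mul_self_nonneg b]
    · have := mul_self_pos.2 h; nlinarith [mul_self_nonneg a]
  have hDne : D ≠ 0 := hDpos.ne'
  set Q : ℝ → ℝ → ℝ × ℝ := fun s t => ((a * t - b * s) / D, (b * t + a * s) / D) with hQ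
  have hQa : ∀ w, Q (σ w) (τ w) = w := by
    intro w
    ext
    · simp only [hQ, hσ, hτ]; rw [div_eq_iff hDne]; simp only [hD]; ring
    · simp only [hQ, hσ, hτ]; rw [div_eq_iff hDne]; simp only [hD]; ring
  have hτQ : ∀ s t, τ (Q s t) = t := by
    intro s t
    simp only [hQ, hτ]
    field_simp
    simp only [hD]; ring
  have hd : 0 < dist p q := dist_pos.2 hpq
  set ε₀ : ℝ := dist p q / 3 with hε₀
  have hε₀pos : 0 < ε₀ := by positivity
  -- near `L₀` no line meets `A` twice near `p`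
  obtain ⟨δ₀, hδ₀, hball₀⟩ := Metric.eventually_nhds_iff.1 (hcont ε₀ hε₀pos)
  have honce : ∀ L : ℝ × ℝ × ℝ, dist L (a, b, c) < δ₀ → (L.1 ≠ 0 ∨ L.2.1 ≠ 0) → ∀ z ∈ A, ∀ z' ∈ A,
      dist z p < ε₀ → dist z' p < ε₀ → L.1 * z.1 + L.2.1 * z.2 = L.2.2 →
      L.1 * z'.1 + L.2.1 * z'.2 = L.2.2 → z = z' := by
    intro L hL hLne z hz z' hz' hzp hz'p hzL hz'L
    obtain ⟨p', hp', q', hq', hp'L, hq'L, hp'p, hq'q⟩ := hball₀ hL
    have hfar : ∀ w : ℝ × ℝ, dist w p < ε₀ → q' ≠ w := by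
      rintro w hw rfl
      have : dist p q ≤ dist q' p + dist q' q := by
        rw [dist_comm q' p]
        exact dist_triangle p q' q
      linarith
    exact hA.eq_of_line hLne hq' hz hz' hq'L hzL hz'L (hfar z hzp) (hfar z' hz'p)
  -- constants
  obtain ⟨κ, hκ, ε₁, hε₁, hε₁₀, hκε⟩ : ∃ κ > 0, ∃ ε₁ > 0, ε₁ ≤ ε₀ ∧
      ∀ k : ℝ, |k| ≤ κ → ∀ z : ℝ × ℝ, dist z p < ε₁ →
        dist ((a + k * b, b - k * a, (a + k * b) * z.1 + (b - k * a) * z.2) : ℝ × ℝ × ℝ)
          (a, b, c) < δ₀ ∧ (a + k * b ≠ 0 ∨ b - k * a ≠ 0) := by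
    have hc1 : Continuous fun x : ℝ × (ℝ × ℝ) =>
        ((a + x.1 * b, b - x.1 * a, (a + x.1 * b) * x.2.1 + (b - x.1 * a) * x.2.2) : ℝ × ℝ × ℝ) := by
      fun_prop
    have h1 : ∀ᶠ x : ℝ × (ℝ × ℝ) in 𝓝 (0, p),
        dist ((a + x.1 * b, b - x.1 * a, (a + x.1 * b) * x.2.1 + (b - x.1 * a) * x.2.2) :
          ℝ × ℝ × ℝ) (a, b, c) < δ₀ := by
      have ht := hc1.tendsto ((0 : ℝ), p)
      have : ((a + (0 : ℝ) * b, b - (0 : ℝ) * a, (a + (0 : ℝ) * b) * p.1 + (b - (0 : ℝ) * a) * p.2) :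
          ℝ × ℝ × ℝ) = (a, b, c) := by
        rw [← hpL]; simp
      simp only [this] at ht
      exact ht.eventually (Metric.ball_mem_nhds _ hδ₀)
    obtain ⟨r, hr, hrb⟩ := Metric.eventually_nhds_iff.1 h1
    refine ⟨min (r / 2) 1, by positivity, min (r / 2) ε₀, by positivity, min_le_right _ _, ?_⟩
    intro k hk z hz
    constructor
    · apply hrb (y := (k, z))
      rw [Prod.dist_eq, max_lt_iff]
      refine ⟨?_, lt_of_lt_of_le hz ((min_le_left _ _).trans (by linarith))⟩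
      simp only
      rw [Real.dist_eq, sub_zero]
      exact lt_of_le_of_lt (hk.trans (min_le_left _ _)) (by linarith)
    · by_contra hcon
      push Not at hcon
      obtain ⟨h2, h3⟩ := hcon
      have h4 : D = 0 := by
        have e1 : a = -(k * b) := by linarith
        have e2 : b = k * a := by linarith
        simp only [hD]
        calc a * a + b * b = a * (-(k * b)) + b * (k * a) := by rw [← e1, ← e2]
          _ = 0 := by ring
      exact hDne h4
  -- Lipschitz estimate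
  have hLip : ∀ z ∈ A, ∀ z' ∈ A, dist z p < ε₁ → dist z' p < ε₁ →
      κ * |σ z' - σ z| ≤ |τ z' - τ z| := by
    intro z hz z' hz' hzp hz'p
    by_contra hcon
    push Not at hcon
    have hs : σ z' - σ z ≠ 0 := by
      intro h0
      rw [h0, abs_zero, mul_zero] at hcon
      exact absurd hcon (not_lt.2 (abs_nonneg _))
    have hspos : 0 < |σ z' - σ z| := abs_pos.2 hs
    set k : ℝ := (τ z' - τ z) / (σ z' - σ z) with hk
    have hkκ : |k| ≤ κ := by
      rw [hk, abs_div, div_le_iff₀ hspos]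
      exact hcon.le
    obtain ⟨h1, h2⟩ := hκε k hkκ z hzp
    have hkm : k * (σ z' - σ z) = τ z' - τ z := div_mul_cancel₀ _ hs
    have h3 : z = z' := by
      refine honce _ h1 h2 z hz z' hz' (by linarith) (by linarith) rfl ?_
      simp only [hσ, hτ] at hkm
      simp only
      linear_combination -hkm
    rw [h3, sub_self] at hs
    exact hs rfl
  -- points near `p` on parallel lines
  obtain ⟨δ₁, hδ₁, hball₁⟩ := Metric.eventually_nhds_iff.1 (hcont ε₁ hε₁)
  have hex : ∀ t : ℝ, |t - c| < δ₁ → ∃ z ∈ A, dist z p < ε₁ ∧ τ z = t := by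
    intro t ht
    have hd1 : dist ((a, b, t) : ℝ × ℝ × ℝ) (a, b, c) < δ₁ := by
      simp only [Prod.dist_eq, dist_self, Real.dist_eq]
      rw [max_lt_iff, max_lt_iff]
      exact ⟨hδ₁, hδ₁, ht⟩
    obtain ⟨p', hp', q', hq', hp'L, hq'L, hp'p, hq'q⟩ := hball₁ hd1
    exact ⟨p', hp', hp'p, hp'L⟩
  choose! z hzA hzp hzt using hex
  have hsub : ∀ t ∈ Icc (c - δ₁ / 2) (c + δ₁ / 2), |t - c| < δ₁ := by
    intro t ht
    rw [abs_lt]
    constructor <;> linarith [ht.1, ht.2]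
  have hσc : ContinuousOn (fun t => σ (z t)) (Icc (c - δ₁ / 2) (c + δ₁ / 2)) := by
    rw [Metric.continuousOn_iff]
    intro t ht η hη
    refine ⟨κ * η, by positivity, ?_⟩
    intro t' ht' hd'
    rw [Real.dist_eq] at hd' ⊢
    have h1 := hLip (z t) (hzA t (hsub t ht)) (z t') (hzA t' (hsub t' ht')) (hzp t (hsub t ht))
      (hzp t' (hsub t' ht'))
    rw [hzt t (hsub t ht), hzt t' (hsub t' ht')] at h1
    have h2 : κ * |σ (z t') - σ (z t)| < κ * η := lt_of_le_of_lt h1 hd'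
    exact lt_of_mul_lt_mul_left h2 hκ.le
  refine hA.no_arc (γ := fun t => Q (σ (z t)) t) (α := c - δ₁ / 2) (β := c + δ₁ / 2) (by linarith)
    ?_ ?_ ?_
  · simp only [hQ]
    exact (((continuousOn_const.mul continuousOn_id).sub (continuousOn_const.mul hσc)).div_const
      D).prodMk (((continuousOn_const.mul continuousOn_id).add
        (continuousOn_const.mul hσc)).div_const D)
  · intro t _ t' _ h
    have := congrArg τ h
    simpa only [hτQ] using this
  · intro t ht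
    have : Q (σ (z t)) t = z t := by
      conv_lhs => rw [← hzt t (hsub t ht)]
      rw [hzt t (hsub t ht)]
      have := hQa (z t)
      rwa [hzt t (hsub t ht)] at this
    show Q (σ (z t)) t ∈ A
    rw [this]
    exact hzA t (hsub t ht)

end Pool.Agent.Helper71.TwoPt
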