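import Pool.Agent.Helper71.TwoPt.Compact

set_option autoImplicit false

open Set Topology

namespace Pool.Agent.Helper71.TwoPt

/-- If a compact set `F` is hit by some line of the open convex family `O` but not by the line
`L₀ ∈ O`, and every line of `O` which misses `F` meets the compact set `F'`, then there is a
connected nontrivial family of lines in `O` which meet both `F` and `F'`. -/
theorem exists_path {F F' O : Set (ℝ × ℝ)} (hF : IsCompact F) (hF' : IsCompact F')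
    (hO : IsOpen O) (hconv : Convex ℝ O) (hcov : O ⊆ Hit F ∪ Hit F') {L₀ L₁ : ℝ × ℝ}
    (h₀ : L₀ ∈ O) (h₀F : L₀ ∉ Hit F) (h₁ : L₁ ∈ O) (h₁F : L₁ ∈ Hit F) :
    ∃ C : Set (ℝ × ℝ), IsPreconnected C ∧ C ⊆ O ∧ C ⊆ Hit F ∧ C ⊆ Hit F' ∧ ¬ C.Subsingleton := by
  have hFc : CompactSpace F := isCompact_iff_compactSpace.1 hF
  obtain ⟨w₁, hw₁, hw₁L⟩ := h₁F
  have hFne : Nonempty F := ⟨⟨w₁, hw₁⟩⟩
  -- the gauge
  set d : F → ℝ := fun w => (w : ℝ × ℝ).2 - (L₀.1 * (w : ℝ × ℝ).1 + L₀.2) with hd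
  have hdne : ∀ w, d w ≠ 0 := fun w h => h₀F ⟨w, w.2, by simp only [hd] at h; linarith⟩
  have hdc : Continuous d := by simp only [hd]; fun_prop
  set r : ℝ × ℝ → F → ℝ := fun V w => (V.1 * (w : ℝ × ℝ).1 + V.2) / d w with hr
  have hrc : Continuous (Function.uncurry r) := by
    apply Continuous.div
    · fun_prop
    · exact hdc.comp continuous_snd
    · exact fun q => hdne q.2
  set G : ℝ × ℝ → ℝ := fun V => sSup (r V '' univ) with hG
  have hGc : Continuous G := isCompact_univ.continuous_sSup hrc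
  have hGle : ∀ V w, r V w ≤ G V := fun V w =>
    le_csSup (isCompact_univ.bddAbove_image (hrc.comp (Continuous.prodMk_right V)).continuousOn)
      (mem_image_of_mem _ (mem_univ w))
  have hGatt : ∀ V, ∃ w, r V w = G V := fun V => by
    obtain ⟨w, _, hw⟩ := isCompact_univ.exists_sSup_image_eq (s := univ) univ_nonempty
      (hrc.comp (Continuous.prodMk_right V)).continuousOn
    exact ⟨w, hw.symm⟩
  have hrsmul : ∀ (t : ℝ) V w, r (t • V) w = t * r V w := fun t V w => by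
    simp only [hr, Prod.smul_fst, Prod.smul_snd, smul_eq_mul]; ring
  have hGsmul : ∀ t : ℝ, 0 < t → ∀ V, G (t • V) = t * G V := by
    intro t ht V
    apply le_antisymm
    · obtain ⟨w, hw⟩ := hGatt (t • V)
      rw [← hw, hrsmul]
      exact mul_le_mul_of_nonneg_left (hGle V w) ht.le
    · obtain ⟨w, hw⟩ := hGatt V
      rw [← hw, ← hrsmul]
      exact hGle _ w
  -- lines hit `F` iff ratio is one
  have hhit : ∀ V w, r V w = 1 → L₀ + V ∈ Hit F := by
    intro V w h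
    refine ⟨w, w.2, ?_⟩
    have : V.1 * (w : ℝ × ℝ).1 + V.2 = d w := by
      simp only [hr] at h
      rw [div_eq_one_iff_eq (hdne w)] at h
      exact h
    simp only [hd] at this
    simp only [Prod.fst_add, Prod.snd_add]
    linarith
  have hhit' : ∀ V, L₀ + V ∈ Hit F → ∃ w, r V w = 1 := by
    rintro V ⟨w, hwF, hw⟩
    refine ⟨⟨w, hwF⟩, ?_⟩
    simp only [hr]
    rw [div_eq_one_iff_eq (hdne _)]
    simp only [hd]
    simp only [Prod.fst_add, Prod.snd_add] at hw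
    linarith
  -- on the unit sphere of the gauge, inside `O`, lines hit both sets
  have hboth : ∀ V, L₀ + V ∈ O → G V = 1 → L₀ + V ∈ Hit F ∧ L₀ + V ∈ Hit F' := by
    intro V hV hGV
    obtain ⟨w, hw⟩ := hGatt V
    refine ⟨hhit V w (hw.trans hGV), ?_⟩
    have hcl : IsClosed (Hit F') := isClosed_hit hF'
    have hmem : ∀ t ∈ Ioo (0 : ℝ) 1, L₀ + t • V ∈ Hit F' := by
      intro t ht
      have hO' : L₀ + t • V ∈ O := by
        have := hconv h₀ hV (sub_nonneg.2 ht.2.le) ht.1.le (by ring)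
        convert this using 1
        rw [smul_add, ← add_assoc, ← add_smul]
        simp
      rcases hcov hO' with h | h
      · exfalso
        obtain ⟨w', hw'⟩ := hhit' _ h
        have h1 := hGle (t • V) w'
        rw [hw', hGsmul t ht.1, hGV, mul_one] at h1
        exact absurd ht.2 (not_lt.2 h1)
      · exact h
    have htend : Filter.Tendsto (fun t : ℝ => L₀ + t • V) (𝓝[<] 1) (𝓝 (L₀ + (1 : ℝ) • V)) := by
      apply Filter.Tendsto.mono_left _ nhdsWithin_le_nhds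
      exact (Continuous.tendsto (by fun_prop) 1)
    rw [one_smul] at htend
    refine hcl.mem_of_tendsto htend ?_
    filter_upwards [Ioo_mem_nhdsLT (show (0 : ℝ) < 1 by norm_num)] with t ht
    exact hmem t ht
  -- a direction with gauge bigger than one
  set V₁ : ℝ × ℝ := L₁ - L₀ with hV₁
  have hGV₁ : 1 ≤ G V₁ := by
    obtain ⟨w, hw⟩ := hhit' V₁ ⟨w₁, hw₁, by simp only [hV₁]; rw [add_sub_cancel]; exact hw₁L⟩
    exact hw ▸ hGle V₁ w
  have hV₁ne : V₁ ≠ 0 := by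
    intro h0
    have h2 : G (0 : ℝ × ℝ) = 0 := by
      obtain ⟨w, hw⟩ := hGatt 0
      rw [← hw]
      simp [hr]
    rw [h0, h2] at hGV₁
    norm_num at hGV₁
  obtain ⟨ε, hε, hεO⟩ : ∃ ε : ℝ, 0 < ε ∧ L₀ + (1 + ε) • V₁ ∈ O := by
    have hcont : Filter.Tendsto (fun ε : ℝ => L₀ + (1 + ε) • V₁) (𝓝[>] 0) (𝓝 L₁) := by
      have : Filter.Tendsto (fun ε : ℝ => L₀ + (1 + ε) • V₁) (𝓝 0) (𝓝 (L₀ + (1 + (0 : ℝ)) • V₁)) :=
        Continuous.tendsto (by fun_prop) 0
      rw [add_zero, one_smul, hV₁, add_sub_cancel] at this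
      exact this.mono_left nhdsWithin_le_nhds
    have hev := (hcont.eventually (hO.mem_nhds h₁)).and self_mem_nhdsWithin
    obtain ⟨ε, h1, h2⟩ := hev.exists
    exact ⟨ε, h2, h1⟩
  set V₂ : ℝ × ℝ := (1 + ε) • V₁ with hV₂
  have hV₂ne : V₂ ≠ 0 := by
    intro h0
    rcases smul_eq_zero.1 h0 with h | h
    · linarith
    · exact hV₁ne h
  have hGV₂ : 1 < G V₂ := by
    rw [hV₂, hGsmul _ (by linarith)]
    nlinarith
  set U : ℝ × ℝ := (-V₂.2, V₂.1) with hU
  have hcontO : Filter.Tendsto (fun s : ℝ => L₀ + (V₂ + s • U)) (𝓝 0) (𝓝 (L₀ + V₂)) := by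
    have : Filter.Tendsto (fun s : ℝ => L₀ + (V₂ + s • U)) (𝓝 0) (𝓝 (L₀ + (V₂ + (0 : ℝ) • U))) :=
      Continuous.tendsto (by fun_prop) 0
    simpa using this
  have hcontG : Filter.Tendsto (fun s : ℝ => G (V₂ + s • U)) (𝓝 0) (𝓝 (G V₂)) := by
    have : Filter.Tendsto (fun s : ℝ => G (V₂ + s • U)) (𝓝 0) (𝓝 (G (V₂ + (0 : ℝ) • U))) :=
      Continuous.tendsto (hGc.comp (by fun_prop)) 0
    simpa using this
  obtain ⟨δ, hδ, hδp⟩ := Metric.eventually_nhds_iff.1
    ((hcontO.eventually (hO.mem_nhds hεO)).and (hcontG.eventually (lt_mem_nhds hGV₂)))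
  have hJ : ∀ s ∈ Icc (0 : ℝ) (δ / 2), L₀ + (V₂ + s • U) ∈ O ∧ 1 < G (V₂ + s • U) := by
    intro s hs
    apply hδp
    rw [Real.dist_eq, sub_zero, abs_of_nonneg hs.1]
    linarith [hs.2]
  set Γ : ℝ → ℝ × ℝ := fun s => L₀ + (G (V₂ + s • U))⁻¹ • (V₂ + s • U) with hΓ
  have hΓc : ContinuousOn Γ (Icc 0 (δ / 2)) := by
    apply continuousOn_const.add
    refine ContinuousOn.smul (f := fun s => (G (V₂ + s • U))⁻¹) (g := fun s => V₂ + s • U) ?_ ?_
    · apply ContinuousOn.inv₀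
      · exact (hGc.comp (by fun_prop)).continuousOn
      · intro s hs
        exact (lt_trans one_pos (hJ s hs).2).ne'
    · fun_prop
  have hΓprop : ∀ s ∈ Icc (0 : ℝ) (δ / 2), Γ s ∈ O ∧ Γ s ∈ Hit F ∧ Γ s ∈ Hit F' := by
    intro s hs
    obtain ⟨h1, h2⟩ := hJ s hs
    have hpos : 0 < G (V₂ + s • U) := lt_trans one_pos h2
    have hinv : (G (V₂ + s • U))⁻¹ < 1 := inv_lt_one_of_one_lt₀ h2
    have hmem : Γ s ∈ O := by
      have := hconv h₀ h1 (sub_nonneg.2 hinv.le) (inv_pos.2 hpos).le (by ring)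
      convert this using 1
      simp only [hΓ]
      rw [smul_add (G (V₂ + s • U))⁻¹ L₀, ← add_assoc, ← add_smul]
      simp
    exact ⟨hmem, hboth _ hmem (by rw [hGsmul _ (inv_pos.2 hpos), inv_mul_cancel₀ hpos.ne'])⟩
  refine ⟨Γ '' Icc 0 (δ / 2), isPreconnected_Icc.image _ hΓc, ?_, ?_, ?_, ?_⟩
  · rintro _ ⟨s, hs, rfl⟩; exact (hΓprop s hs).1
  · rintro _ ⟨s, hs, rfl⟩; exact (hΓprop s hs).2.1
  · rintro _ ⟨s, hs, rfl⟩; exact (hΓprop s hs).2.2
  · intro hsub
    have h0 : (0 : ℝ) ∈ Icc (0 : ℝ) (δ / 2) := ⟨le_rfl, by linarith⟩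
    have h1 : δ / 2 ∈ Icc (0 : ℝ) (δ / 2) := ⟨by linarith, le_rfl⟩
    have he := hsub (mem_image_of_mem Γ h0) (mem_image_of_mem Γ h1)
    simp only [hΓ, zero_smul, add_zero] at he
    have he' := add_left_cancel he
    have hp0 : G V₂ ≠ 0 := (lt_trans one_pos hGV₂).ne'
    have hp1 : G (V₂ + (δ / 2) • U) ≠ 0 := (lt_trans one_pos (hJ _ h1).2).ne'
    have e1 := congrArg Prod.fst he'
    have e2 := congrArg Prod.snd he'
    simp only [Prod.smul_fst, Prod.smul_snd, Prod.fst_add, Prod.snd_add, smul_eq_mul, hU] at e1 e2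
    set g₀ := (G V₂)⁻¹ with hg₀
    set g₁ := (G (V₂ + (δ / 2) • U))⁻¹ with hg₁
    have hg₀ne : g₀ ≠ 0 := inv_ne_zero hp0
    have hg₁ne : g₁ ≠ 0 := inv_ne_zero hp1
    have hcross : g₀ * g₁ * (δ / 2) * (V₂.1 * V₂.1 + V₂.2 * V₂.2) = 0 := by
      have e3 : g₀ * V₂.1 * (g₁ * (V₂.2 + δ / 2 * V₂.1)) =
          g₀ * V₂.2 * (g₁ * (V₂.1 + δ / 2 * -V₂.2)) := by
        rw [e1, e2]; ring
      linear_combination e3
    have hsq : V₂.1 * V₂.1 + V₂.2 * V₂.2 = 0 := by
      have : g₀ * g₁ * (δ / 2) ≠ 0 := by positivity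
      exact (mul_eq_zero.1 hcross).resolve_left this
    apply hV₂ne
    ext
    · simp only [Prod.fst_zero]; nlinarith [mul_self_nonneg V₂.1, mul_self_nonneg V₂.2]
    · simp only [Prod.snd_zero]; nlinarith [mul_self_nonneg V₂.1, mul_self_nonneg V₂.2]

/-- A totally separated compact set with at most two points on each line of an open convex family
`O` cannot meet all lines of `O`. -/
theorem not_subset_hit {K O : Set (ℝ × ℝ)}
    (hsep : ∀ p ∈ K, ∀ q ∈ K, p ≠ q → ∃ G₁ G₂ : Set (ℝ × ℝ), IsCompact G₁ ∧ IsCompact G₂ ∧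
      G₁ ∪ G₂ = K ∧ Disjoint G₁ G₂ ∧ p ∈ G₁ ∧ q ∈ G₂)
    (hO : IsOpen O) (hconv : Convex ℝ O) (hne : O.Nonempty)
    (htwo : ∀ L ∈ O, ∀ p ∈ K, ∀ q ∈ K, ∀ r ∈ K, p.2 = L.1 * p.1 + L.2 → q.2 = L.1 * q.1 + L.2 →
      r.2 = L.1 * r.1 + L.2 → p = q ∨ p = r ∨ q = r)
    (hit : O ⊆ Hit K) : False := by
  obtain ⟨⟨m₀, c₀⟩, hL₀⟩ := hne
  obtain ⟨w, hwK, hw⟩ := hit hL₀
  simp only at hw
  -- a nearby line of `O` which avoids `w`
  obtain ⟨η, hη, hball⟩ := Metric.isOpen_iff.1 hO _ hL₀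
  have hL₁ : (m₀, c₀ + η / 2) ∈ O := by
    apply hball
    rw [Metric.mem_ball, Prod.dist_eq]
    simp only [dist_self]
    rw [max_lt_iff]
    refine ⟨hη, ?_⟩
    rw [Real.dist_eq, add_sub_cancel_left, abs_of_pos (by linarith)]
    linarith
  obtain ⟨w', hw'K, hw'⟩ := hit hL₁
  simp only at hw'
  have hww' : w ≠ w' := by
    rintro rfl
    linarith
  obtain ⟨F, F', hF, hF', hFF', hdisj, hwF, hw'F'⟩ := hsep w hwK w' hw'K hww'
  have hFK : F ⊆ K := hFF' ▸ subset_union_left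
  have hF'K : F' ⊆ K := hFF' ▸ subset_union_right
  have hcov : O ⊆ Hit F ∪ Hit F' := by rw [← hit_union, hFF']; exact hit
  have hcov' : O ⊆ Hit F' ∪ Hit F := by rw [union_comm]; exact hcov
  have htriv : ∀ C : Set (ℝ × ℝ), IsPreconnected C → C ⊆ O → C ⊆ Hit F → C ⊆ Hit F' →
      C.Subsingleton := fun C h1 h2 h3 h4 =>
    subsingleton_of_isPreconnected hsep hF hF' hFK hF'K hdisj h1
      (fun L hL => htwo L (h2 hL)) h3 h4
  have hall : O ⊆ Hit F := by
    intro L hL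
    by_contra hLF
    obtain ⟨C, h1, h2, h3, h4, h5⟩ := exists_path hF hF' hO hconv hcov hL hLF hL₀ ⟨w, hwF, hw⟩
    exact h5 (htriv C h1 h2 h3 h4)
  have hall' : O ⊆ Hit F' := by
    intro L hL
    by_contra hLF
    obtain ⟨C, h1, h2, h3, h4, h5⟩ := exists_path hF' hF hO hconv hcov' hL hLF hL₁ ⟨w', hw'F', hw'⟩
    exact h5 (htriv C h1 h2 h4 h3)
  -- a small ball of `O` would be a connected family
  have hconn : IsPreconnected O := hconv.isPreconnected
  have := htriv O hconn le_rfl hall hall' hL₀ hL₁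
  have := congrArg Prod.snd this
  simp only at this
  linarith

/-- For a compact subset `K` of a two-point set, the set of lines meeting `K` is closed with empty
interior. -/
theorem IsTwoPoint.isNowhereDense_hit {A : Set (ℝ × ℝ)} (hA : IsTwoPoint A) {K : Set (ℝ × ℝ)}
    (hK : IsCompact K) (hKA : K ⊆ A) : IsNowhereDense (Hit K) := by
  rw [IsNowhereDense, (isClosed_hit hK).closure_eq]
  by_contra hne
  rw [← ne_eq, ← nonempty_iff_ne_empty] at hne
  obtain ⟨L, hL⟩ := hne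
  obtain ⟨ε, hε, hball⟩ := Metric.isOpen_iff.1 isOpen_interior L hL
  refine not_subset_hit (fun p hp q hq hpq => hA.exists_separation hK hKA hp hq hpq)
    Metric.isOpen_ball (convex_ball L ε) ⟨L, Metric.mem_ball_self hε⟩ ?_
    (hball.trans interior_subset)
  intro M _ p hp q hq r hr hpM hqM hrM
  by_contra hcon
  push Not at hcon
  obtain ⟨h1, h2, h3⟩ := hcon
  exact h3 (hA.eq_of_line (a := M.1) (b := -1) (c := -M.2) (Or.inr (by norm_num)) (hKA hp) (hKA hq)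
    (hKA hr) (by linarith) (by linarith) (by linarith) h1 h2)

end Pool.Agent.Helper71.TwoPt
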