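import Pool.Agent.Helper71.TwoPt.Arc

set_option autoImplicit false

open Set Topology Filter

namespace Pool.Agent.Helper71.TwoPt

/-- A subset `Γ` of a Borel part of a two-point set on which the coordinate `s = u x + v y` is a
uniformly continuous function of the transversal coordinate `t = u y - v x` (modulus given by the
monotone function `ω`) has a meager set of transversal coordinates. -/
theorem IsTwoPoint.isMeagre_transversal {A S Γ : Set (ℝ × ℝ)} (hA : IsTwoPoint A) (hSA : S ⊆ A)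
    (hS : MeasurableSet S) (hΓ : Γ ⊆ S) {u v : ℝ} (huv : u ≠ 0 ∨ v ≠ 0) {ω : ℝ → ℝ}
    (hω : MonotoneOn ω (Ioi 0)) (hω0 : ∀ r, 0 < r → 0 < ω r)
    (hmod : ∀ a ∈ Γ, ∀ a' ∈ Γ, (u * a.1 + v * a.2) ≠ (u * a'.1 + v * a'.2) →
      ω |(u * a.1 + v * a.2) - (u * a'.1 + v * a'.2)| ≤
        |(u * a.2 - v * a.1) - (u * a'.2 - v * a'.1)|) :
    IsMeagre ((fun a : ℝ × ℝ => u * a.2 - v * a.1) '' Γ) := by
  set τ : ℝ × ℝ → ℝ := fun a => u * a.2 - v * a.1 with hτ
  set σ : ℝ × ℝ → ℝ := fun a => u * a.1 + v * a.2 with hσ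
  set D : ℝ := u * u + v * v with hD
  have hDne : D ≠ 0 := by
    rcases huv with h | h
    · have := mul_self_pos.2 h; nlinarith [mul_self_nonneg v]
    · have := mul_self_pos.2 h; nlinarith [mul_self_nonneg u]
  -- back to the plane
  set Q : ℝ → ℝ → ℝ × ℝ := fun s t => ((u * s - v * t) / D, (v * s + u * t) / D) with hQ
  have hQa : ∀ a, Q (σ a) (τ a) = a := by
    intro a
    ext
    · simp only [hQ, hσ, hτ]; rw [div_eq_iff hDne]; simp only [hD]; ring
    · simp only [hQ, hσ, hτ]; rw [div_eq_iff hDne]; simp only [hD]; ring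
  have hτQ : ∀ s t, τ (Q s t) = t := by
    intro s t
    simp only [hQ, hτ]
    field_simp
    simp only [hD]; ring
  by_contra hT
  set T : Set ℝ := τ '' Γ with hTdef
  set g : ℝ → ℝ := fun t => σ (Function.invFunOn τ Γ t) with hg
  have hmod' : ∀ a ∈ Γ, ∀ a' ∈ Γ, ∀ η, 0 < η → |τ a - τ a'| < ω η → |σ a - σ a'| < η := by
    intro a ha a' ha' η hη h
    by_contra hcon
    push Not at hcon
    have hne : σ a ≠ σ a' := by
      intro he
      rw [he, sub_self, abs_zero] at hcon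
      linarith
    have h1 := hmod a ha a' ha' hne
    have h2 : ω η ≤ ω |σ a - σ a'| :=
      hω (mem_Ioi.2 hη) (mem_Ioi.2 (lt_of_lt_of_le hη hcon)) hcon
    exact absurd h (not_lt.2 (h2.trans h1))
  have hga : ∀ a ∈ Γ, g (τ a) = σ a := fun a ha => by
    have h1 : Function.invFunOn τ Γ (τ a) ∈ Γ := Function.invFunOn_mem ⟨a, ha, rfl⟩
    have h2 : τ (Function.invFunOn τ Γ (τ a)) = τ a := Function.invFunOn_eq ⟨a, ha, rfl⟩
    by_contra hne
    have h3 : 0 < |σ (Function.invFunOn τ Γ (τ a)) - σ a| := abs_pos.2 (sub_ne_zero.2 hne)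
    have h4 := hmod' _ h1 a ha _ h3 (by rw [h2, sub_self, abs_zero]; exact hω0 _ h3)
    exact lt_irrefl _ h4
  -- `g` has limits along `T`
  have hlim : ∀ x ∈ closure T, ∃ y, Tendsto g (𝓝[T] x) (𝓝 y) := by
    intro x hx
    have hne : (𝓝[T] x).NeBot := mem_closure_iff_nhdsWithin_neBot.1 hx
    apply cauchy_map_iff_exists_tendsto.1
    refine ⟨hne.map g, ?_⟩
    rw [Metric.uniformity_basis_dist.ge_iff]
    intro η hη
    rw [mem_prod_same_iff]
    refine ⟨g '' (Metric.ball x (ω η / 2) ∩ T), image_mem_map ?_, ?_⟩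
    · rw [inter_comm]
      exact inter_mem_nhdsWithin T (Metric.ball_mem_nhds x (by have := hω0 η hη; linarith))
    · rintro ⟨_, _⟩ ⟨⟨_, ⟨h1, ⟨a, ha, rfl⟩⟩, rfl⟩, ⟨_, ⟨h2, ⟨a', ha', rfl⟩⟩, rfl⟩⟩
      simp only [mem_ofPred_eq]
      rw [hga a ha, hga a' ha', Real.dist_eq]
      apply hmod' a ha a' ha' η hη
      rw [Metric.mem_ball, Real.dist_eq] at h1 h2
      have h3 : τ a - τ a' = (τ a - x) - (τ a' - x) := by ring
      rw [h3]
      refine lt_of_le_of_lt (abs_sub _ _) ?_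
      linarith
  set G : ℝ → ℝ := extendFrom T g with hG
  have hGc : ContinuousOn G (closure T) := continuousOn_extendFrom le_rfl hlim
  have hGg : ∀ t ∈ T, G t = g t := by
    apply extendFrom_extends
    intro t ht
    obtain ⟨a, ha, rfl⟩ := ht
    rw [Metric.continuousWithinAt_iff]
    intro η hη
    refine ⟨ω η, hω0 η hη, ?_⟩
    rintro _ ⟨a', ha', rfl⟩ hd
    rw [hga a ha, hga a' ha', Real.dist_eq]
    exact hmod' a' ha' a ha η hη (by rwa [Real.dist_eq] at hd)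
  -- a window in which `T` is not meager
  obtain ⟨α, β, hαβ, hJ, hTJ⟩ : ∃ α β : ℝ, α < β ∧ Icc α β ⊆ closure T ∧
      ¬ IsMeagre (T ∩ Ioo α β) := by
    by_contra hcon
    push Not at hcon
    apply hT
    have hfr : IsMeagre (closure T \ interior (closure T)) := by
      have : IsNowhereDense (frontier (closure T)) := by
        rw [IsNowhereDense, isClosed_frontier.closure_eq]
        exact interior_frontier isClosed_closure
      refine this.isMeagre.mono ?_
      rw [isClosed_closure.frontier_eq]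
    have hun : IsMeagre (⋃ p : ℚ, ⋃ q : ℚ, (T ∩ Ioo (p : ℝ) q) ∩
        {_x : ℝ | Icc (p : ℝ) q ⊆ closure T}) := by
      refine isMeagre_iUnion fun p => isMeagre_iUnion fun q => ?_
      by_cases hpq : (p : ℝ) < q ∧ Icc (p : ℝ) q ⊆ closure T
      · exact (hcon p q hpq.1 hpq.2).mono inter_subset_left
      · refine IsMeagre.empty.mono ?_
        rintro x ⟨⟨_, hx⟩, hx'⟩
        exact hpq ⟨hx.1.trans hx.2, hx'⟩
    refine (hfr.union hun).mono ?_
    intro t ht
    by_cases hti : t ∈ interior (closure T)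
    · right
      obtain ⟨δ, hδ, hball⟩ := Metric.isOpen_iff.1 isOpen_interior t hti
      obtain ⟨p, hp, hp'⟩ := exists_rat_btwn (show t - δ < t by linarith)
      obtain ⟨q, hq, hq'⟩ := exists_rat_btwn (show t < t + δ by linarith)
      refine mem_iUnion.2 ⟨p, mem_iUnion.2 ⟨q, ⟨ht, hp', hq⟩, ?_⟩⟩
      intro x hx
      apply interior_subset
      apply hball
      rw [Real.ball_eq_Ioo]
      exact ⟨by linarith [hx.1], by linarith [hx.2]⟩
    · left
      exact ⟨subset_closure ht, hti⟩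
  -- the arc
  set c : ℝ → ℝ := fun t => max α (min t β) with hc
  have hcc : Continuous c := by simp only [hc]; fun_prop
  have hcI : ∀ t, c t ∈ Icc α β := fun t => ⟨le_max_left _ _, max_le hαβ.le (min_le_right _ _)⟩
  have hct : ∀ t ∈ Icc α β, c t = t := fun t ht => by
    simp only [hc]; rw [min_eq_left ht.2, max_eq_right ht.1]
  set γ : ℝ → ℝ × ℝ := fun t => Q (G (c t)) (c t) with hγ
  have hGcc : Continuous fun t => G (c t) :=
    hGc.comp_continuous hcc fun t => hJ (hcI t)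
  have hγc : Continuous γ := by
    simp only [hγ, hQ]
    exact (((continuous_const.mul hGcc).sub (continuous_const.mul hcc)).div_const D).prodMk
      (((continuous_const.mul hGcc).add (continuous_const.mul hcc)).div_const D)
  have hγi : InjOn γ (Icc α β) := by
    intro t ht t' ht' h
    have := congrArg τ h
    simp only [hγ, hτQ] at this
    rw [hct t ht, hct t' ht'] at this
    exact this
  have hγT : ∀ t ∈ T ∩ Ioo α β, γ t ∈ S := by
    rintro _ ⟨⟨a, ha, rfl⟩, ht⟩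
    have ht' : τ a ∈ Icc α β := ⟨ht.1.le, ht.2.le⟩
    simp only [hγ]
    rw [hct _ ht', hGg _ ⟨a, ha, rfl⟩, hga a ha, hQa]
    exact hΓ ha
  obtain ⟨W, hW, hSW⟩ := ((hγc.measurable hS).inter measurableSet_Ioo).residualEq_isOpen
    (s := γ ⁻¹' S ∩ Ioo α β)
  have hWne : (W ∩ Ioo α β).Nonempty := by
    by_contra hcon
    rw [not_nonempty_iff_eq_empty] at hcon
    apply hTJ
    have : ∀ᶠ x in residual ℝ, x ∉ T ∩ Ioo α β := by
      filter_upwards [hSW] with x hx hxT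
      rw [eq_iff_iff] at hx
      have h1 : x ∈ W := hx.1 ⟨hγT x hxT, hxT.2⟩
      have h2 : x ∈ W ∩ Ioo α β := ⟨h1, hxT.2⟩
      rw [hcon] at h2
      exact h2
    exact this
  obtain ⟨x, hx⟩ := hWne
  obtain ⟨δ, hδ, hball⟩ := Metric.isOpen_iff.1 (hW.inter isOpen_Ioo) x hx
  rw [Real.ball_eq_Ioo] at hball
  refine hA.not_residual_arc (γ := γ) (α := x - δ / 2) (β := x + δ / 2) hγc.continuousOn
    (hγi.mono ?_) (by linarith) ?_
  · intro y hy
    have : y ∈ W ∩ Ioo α β := hball ⟨by linarith [hy.1], by linarith [hy.2]⟩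
    exact ⟨this.2.1.le, this.2.2.le⟩
  · have : ∀ᶠ y in residual ℝ, y ∉ {t | t ∈ Ioo (x - δ / 2) (x + δ / 2) ∧ γ t ∉ A} := by
      filter_upwards [hSW] with y hy hym
      rw [eq_iff_iff] at hy
      have h1 : y ∈ W ∩ Ioo α β := hball ⟨by linarith [hym.1.1], by linarith [hym.1.2]⟩
      exact hym.2 (hSA (hy.2 h1.1).1)
    exact this

/-- **Generic lines of every direction have contact of every order with `S`, from both sides.**
`S` is a Borel subset of a two-point set, `(u, v)` a direction, and `ω` any positive nondecreasing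
function on `(0, ∞)`. For comeagerly many lines `u y - v x = c`, every point `a` of `S` on the line
is a limit, from both sides, of points `z` of `S` whose distance to the line is at most
`ω` of the displacement along the line. -/
theorem IsTwoPoint.generic_contact {A S : Set (ℝ × ℝ)} (hA : IsTwoPoint A) (hSA : S ⊆ A)
    (hS : MeasurableSet S) {u v : ℝ} (huv : u ≠ 0 ∨ v ≠ 0) {ω : ℝ → ℝ}
    (hω : MonotoneOn ω (Ioi 0)) (hω0 : ∀ r, 0 < r → 0 < ω r) :
    ∀ᶠ c : ℝ in residual ℝ, ∀ a ∈ S, u * a.2 - v * a.1 = c → ∀ ε > 0,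
      (∃ z ∈ S, 0 < (u * z.1 + v * z.2) - (u * a.1 + v * a.2) ∧
        (u * z.1 + v * z.2) - (u * a.1 + v * a.2) < ε ∧
        |(u * z.2 - v * z.1) - c| ≤ ω ((u * z.1 + v * z.2) - (u * a.1 + v * a.2))) ∧
      (∃ z ∈ S, 0 < (u * a.1 + v * a.2) - (u * z.1 + v * z.2) ∧
        (u * a.1 + v * a.2) - (u * z.1 + v * z.2) < ε ∧
        |(u * z.2 - v * z.1) - c| ≤ ω ((u * a.1 + v * a.2) - (u * z.1 + v * z.2))) := by
  set τ : ℝ × ℝ → ℝ := fun a => u * a.2 - v * a.1 with hτ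
  set σ : ℝ × ℝ → ℝ := fun a => u * a.1 + v * a.2 with hσ
  have key : ∀ (bad : ℝ × ℝ → Prop) (ε : ℝ), 0 < ε →
      (∀ a ∈ S, ∀ a' ∈ S, bad a → bad a' → σ a < σ a' → σ a' - σ a < ε →
        ω (σ a' - σ a) ≤ |τ a' - τ a|) →
      IsMeagre {c : ℝ | ∃ a ∈ S, τ a = c ∧ bad a} := by
    intro bad ε hε hbad
    have h1 : IsMeagre (⋃ x₀ : ℚ, τ '' {a | a ∈ S ∧ bad a ∧ (x₀ : ℝ) < σ a ∧ σ a < x₀ + ε}) := by
      refine isMeagre_iUnion fun x₀ => ?_
      refine hA.isMeagre_transversal hSA hS (fun a ha => ha.1) huv hω hω0 ?_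
      rintro a ⟨haS, hba, hax, hax'⟩ a' ⟨ha'S, hba', ha'x, ha'x'⟩ hne
      rcases lt_or_gt_of_ne hne with h | h
      · have h2 := hbad a haS a' ha'S hba hba' h (by linarith)
        rw [abs_sub_comm, abs_of_pos (sub_pos.2 h), abs_sub_comm]
        exact h2
      · have h2 := hbad a' ha'S a haS hba' hba h (by linarith)
        rw [abs_of_pos (sub_pos.2 h)]
        exact h2
    refine h1.mono ?_
    rintro c ⟨a, haS, rfl, hb⟩
    obtain ⟨x₀, hx₀, hx₀'⟩ := exists_rat_btwn (show σ a - ε < σ a by linarith)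
    exact mem_iUnion.2 ⟨x₀, a, ⟨haS, hb, hx₀', by linarith⟩, rfl⟩
  have hR : ∀ k : ℕ, IsMeagre {c : ℝ | ∃ a ∈ S, τ a = c ∧
      ∀ z ∈ S, 0 < σ z - σ a → σ z - σ a < 1 / ((k : ℝ) + 1) → ω (σ z - σ a) ≤ |τ z - τ a|} := by
    intro k
    refine key _ (1 / ((k : ℝ) + 1)) (by positivity) ?_
    intro a _ a' ha' hb _ h1 h2
    exact hb a' ha' (sub_pos.2 h1) h2
  have hL : ∀ k : ℕ, IsMeagre {c : ℝ | ∃ a ∈ S, τ a = c ∧
      ∀ z ∈ S, 0 < σ a - σ z → σ a - σ z < 1 / ((k : ℝ) + 1) → ω (σ a - σ z) ≤ |τ z - τ a|} := by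
    intro k
    refine key _ (1 / ((k : ℝ) + 1)) (by positivity) ?_
    intro a ha a' _ _ hb h1 h2
    rw [abs_sub_comm]
    exact hb a ha (sub_pos.2 h1) h2
  have hR' : ∀ᶠ c : ℝ in residual ℝ, ∀ k : ℕ, ¬ ∃ a ∈ S, τ a = c ∧
      ∀ z ∈ S, 0 < σ z - σ a → σ z - σ a < 1 / ((k : ℝ) + 1) → ω (σ z - σ a) ≤ |τ z - τ a| :=
    eventually_countable_forall.2 fun k => hR k
  have hL' : ∀ᶠ c : ℝ in residual ℝ, ∀ k : ℕ, ¬ ∃ a ∈ S, τ a = c ∧
      ∀ z ∈ S, 0 < σ a - σ z → σ a - σ z < 1 / ((k : ℝ) + 1) → ω (σ a - σ z) ≤ |τ z - τ a| :=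
    eventually_countable_forall.2 fun k => hL k
  filter_upwards [hR', hL'] with c h1 h2 a haS hac ε hε
  obtain ⟨k, hk⟩ := exists_nat_one_div_lt hε
  constructor
  · have h := h1 k
    push Not at h
    obtain ⟨z, hz, hz1, hz2, hz3⟩ := h a haS hac
    refine ⟨z, hz, hz1, hz2.trans hk, ?_⟩
    rw [← hac]
    exact hz3.le
  · have h := h2 k
    push Not at h
    obtain ⟨z, hz, hz1, hz2, hz3⟩ := h a haS hac
    refine ⟨z, hz, hz1, hz2.trans hk, ?_⟩
    rw [← hac]
    exact hz3.le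

end Pool.Agent.Helper71.TwoPt
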