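import Pool.Agent.Helper71.TwoPt.Arc

set_option autoImplicit false

open Set Topology Filter Complex

namespace Pool.Agent.Helper71.TwoPt

/-- Two-point sets in the complex plane. -/
def IsTwoPointC (A : Set ℂ) : Prop :=
  ∀ a b c : ℝ, (a ≠ 0 ∨ b ≠ 0) → (A ∩ {z : ℂ | a * z.re + b * z.im = c}).ncard = 2

/-- The corresponding subset of `ℝ × ℝ`. -/
def toPlane (A : Set ℂ) : Set (ℝ × ℝ) := {p | (⟨p.1, p.2⟩ : ℂ) ∈ A}

theorem IsTwoPointC.isTwoPoint {A : Set ℂ} (hA : IsTwoPointC A) : IsTwoPoint (toPlane A) := by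
  intro a b c hab
  have hinj : Function.Injective fun z : ℂ => ((z.re, z.im) : ℝ × ℝ) := by
    intro z w h
    simp only [Prod.mk.injEq] at h
    exact Complex.ext h.1 h.2
  rw [← hA a b c hab, ← Set.ncard_image_of_injective _ hinj]
  congr 1
  ext p
  constructor
  · rintro ⟨h1, h2⟩
    exact ⟨⟨p.1, p.2⟩, ⟨h1, h2⟩, rfl⟩
  · rintro ⟨z, ⟨h1, h2⟩, rfl⟩
    exact ⟨h1, h2⟩

/-- `p, q, z` collinear points of a two-point set. -/
theorem IsTwoPointC.eq_of_parallel {A : Set ℂ} (hA : IsTwoPointC A) {z p q : ℂ} (hz : z ∈ A)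
    (hp : p ∈ A) (hq : q ∈ A) (hzp : p ≠ z) (hzq : q ≠ z)
    (h : (p.re - z.re) * (q.im - z.im) = (p.im - z.im) * (q.re - z.re)) : p = q := by
  have := hA.isTwoPoint.eq_of_parallel (z := (z.re, z.im)) (p := (p.re, p.im)) (q := (q.re, q.im))
    hz hp hq (fun he => hzp (by
      simp only [Prod.mk.injEq] at he; exact Complex.ext he.1 he.2))
    (fun he => hzq (by simp only [Prod.mk.injEq] at he; exact Complex.ext he.1 he.2)) h
  simp only [Prod.mk.injEq] at this
  exact Complex.ext this.1 this.2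

/-- The point with parameter `t` on the line at signed distance `κ` from `0` with normal
direction `e^{iθ}`. -/
noncomputable def Phi (κ θ t : ℝ) : ℂ := ⟨κ * Real.cos θ - t * Real.sin θ, κ * Real.sin θ + t * Real.cos θ⟩

theorem Phi_eq (κ θ t : ℝ) : Phi κ θ t = (κ + t * I) * exp (θ * I) := by
  apply Complex.ext
  · simp [Phi, Complex.exp_mul_I, Complex.cos_ofReal_re, Complex.sin_ofReal_re,
      Complex.cos_ofReal_im, Complex.sin_ofReal_im]
  · simp [Phi, Complex.exp_mul_I, Complex.cos_ofReal_re, Complex.sin_ofReal_re,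
      Complex.cos_ofReal_im, Complex.sin_ofReal_im]

theorem Phi_inj {κ θ t t' : ℝ} (h : Phi κ θ t = Phi κ θ t') : t = t' := by
  have h1 := congrArg re h
  have h2 := congrArg im h
  simp only [Phi] at h1 h2
  have h3 := Real.sin_sq_add_cos_sq θ
  have h4 : (t - t') * (Real.sin θ ^ 2 + Real.cos θ ^ 2) = 0 := by
    linear_combination (-Real.sin θ) * h1 + Real.cos θ * h2
  rw [h3, mul_one] at h4
  linarith

theorem IsTwoPointC.exists_pair {A : Set ℂ} (hA : IsTwoPointC A) (κ θ : ℝ) :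
    ∃ s s' : ℝ, s < s' ∧ ∀ t, Phi κ θ t ∈ A ↔ t = s ∨ t = s' := by
  have hcs := Real.sin_sq_add_cos_sq θ
  have hne : Real.cos θ ≠ 0 ∨ Real.sin θ ≠ 0 := by
    by_contra hcon
    push Not at hcon
    rw [hcon.1, hcon.2] at hcs
    norm_num at hcs
  obtain ⟨p, q, hpq, h⟩ := Set.ncard_eq_two.1 (hA (Real.cos θ) (Real.sin θ) κ hne)
  have hon : ∀ t, Real.cos θ * (Phi κ θ t).re + Real.sin θ * (Phi κ θ t).im = κ := by
    intro t
    simp only [Phi]
    linear_combination κ * hcs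
  have hpar : ∀ z : ℂ, Real.cos θ * z.re + Real.sin θ * z.im = κ →
      Phi κ θ (-Real.sin θ * z.re + Real.cos θ * z.im) = z := by
    intro z hz
    apply Complex.ext
    · simp only [Phi]
      rw [← hz]
      linear_combination z.re * hcs
    · simp only [Phi]
      rw [← hz]
      linear_combination z.im * hcs
  have hp : p ∈ A ∩ {z : ℂ | Real.cos θ * z.re + Real.sin θ * z.im = κ} := by rw [h]; simp
  have hq : q ∈ A ∩ {z : ℂ | Real.cos θ * z.re + Real.sin θ * z.im = κ} := by rw [h]; simp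
  set s := -Real.sin θ * p.re + Real.cos θ * p.im with hs
  set s' := -Real.sin θ * q.re + Real.cos θ * q.im with hs'
  have hps : Phi κ θ s = p := hpar p hp.2
  have hqs : Phi κ θ s' = q := hpar q hq.2
  have hall : ∀ t, Phi κ θ t ∈ A ↔ t = s ∨ t = s' := by
    intro t
    constructor
    · intro ht
      have h1 : Phi κ θ t ∈ ({p, q} : Set ℂ) := h ▸ ⟨ht, hon t⟩
      rcases h1 with h1 | h1
      · left; exact Phi_inj (h1.trans hps.symm)
      · right; exact Phi_inj ((mem_singleton_iff.1 h1).trans hqs.symm)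
    · rintro (rfl | rfl)
      · rw [hps]; exact hp.1
      · rw [hqs]; exact hq.1
  have hss : s ≠ s' := fun he => hpq (by rw [← hps, ← hqs, he])
  rcases lt_or_gt_of_ne hss with h1 | h1
  · exact ⟨s, s', h1, hall⟩
  · exact ⟨s', s, h1, fun t => (hall t).trans or_comm⟩

/-- Borel conditions on the pair of parameters define Borel sets of directions. -/
theorem IsTwoPointC.measurableSet_dir {A : Set ℂ} (hA : IsTwoPointC A) (hAm : MeasurableSet A)
    (κ : ℝ) {R : Set (ℝ × ℝ)} (hR : MeasurableSet R) :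
    MeasurableSet {θ : ℝ | ∃ s s' : ℝ, s < s' ∧ Phi κ θ s ∈ A ∧ Phi κ θ s' ∈ A ∧ (s, s') ∈ R} := by
  set D : Set (ℝ × ℝ × ℝ) := {x | x.2.1 < x.2.2 ∧ Phi κ x.1 x.2.1 ∈ A ∧ Phi κ x.1 x.2.2 ∈ A ∧
    x.2 ∈ R} with hD
  have hPhi : Continuous fun x : ℝ × ℝ => Phi κ x.1 x.2 := by
    simp only [Phi_eq]
    fun_prop
  have hDm : MeasurableSet D := by
    have h1 : MeasurableSet {x : ℝ × ℝ × ℝ | x.2.1 < x.2.2} :=
      measurableSet_lt (by fun_prop) (by fun_prop)
    have h2 : MeasurableSet {x : ℝ × ℝ × ℝ | Phi κ x.1 x.2.1 ∈ A} :=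
      (hPhi.comp (by fun_prop : Continuous fun x : ℝ × ℝ × ℝ => (x.1, x.2.1))).measurable hAm
    have h3 : MeasurableSet {x : ℝ × ℝ × ℝ | Phi κ x.1 x.2.2 ∈ A} :=
      (hPhi.comp (by fun_prop : Continuous fun x : ℝ × ℝ × ℝ => (x.1, x.2.2))).measurable hAm
    have h4 : MeasurableSet {x : ℝ × ℝ × ℝ | x.2 ∈ R} := measurable_snd hR
    exact h1.inter (h2.inter (h3.inter h4))
  have hinj : InjOn (Prod.fst : ℝ × ℝ × ℝ → ℝ) D := by
    rintro ⟨θ, s, s'⟩ ⟨h1, h2, h3, _⟩ ⟨θ', t, t'⟩ ⟨g1, g2, g3, _⟩ he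
    simp only at he h1 h2 h3 g1 g2 g3
    subst he
    obtain ⟨u, u', huu, hall⟩ := hA.exists_pair κ θ
    have a1 := (hall s).1 h2
    have a2 := (hall s').1 h3
    have a3 := (hall t).1 g2
    have a4 := (hall t').1 g3
    have b1 : s = u := by
      rcases a1 with h | h
      · exact h
      · rcases a2 with h' | h'
        · linarith
        · linarith
    have b2 : s' = u' := by
      rcases a2 with h | h
      · linarith
      · exact h
    have b3 : t = u := by
      rcases a3 with h | h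
      · exact h
      · rcases a4 with h' | h'
        · linarith
        · linarith
    have b4 : t' = u' := by
      rcases a4 with h | h
      · linarith
      · exact h
    rw [b1, b2, b3, b4]
  have himg := hDm.image_of_measurable_injOn measurable_fst hinj
  convert himg using 1
  ext θ
  constructor
  · rintro ⟨s, s', h1, h2, h3, h4⟩
    exact ⟨(θ, s, s'), ⟨h1, h2, h3, h4⟩, rfl⟩
  · rintro ⟨⟨θ', s, s'⟩, ⟨h1, h2, h3, h4⟩, rfl⟩
    exact ⟨s, s', h1, h2, h3, h4⟩

/-- Translates of residual subsets of the line. -/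
theorem eventually_residual_add {P : ℝ → Prop} (h : ∀ᶠ x in residual ℝ, P x) (τ : ℝ) :
    ∀ᶠ x in residual ℝ, P (x + τ) :=
  (tendsto_residual_of_isOpenMap (continuous_add_const τ) (isOpenMap_add_right τ)).eventually h

/-- Topological zero-one law on the line. -/
theorem residual_of_invariant {E W : Set ℝ} (hE : MeasurableSet E)
    (hW : ∀ δ > 0, ∃ ω ∈ W, 0 < ω ∧ ω < δ) (hinv : ∀ ω ∈ W, ∀ θ, θ ∈ E ↔ θ + ω ∈ E)
    (hne : ¬ IsMeagre E) : ∀ᶠ θ in residual ℝ, θ ∈ E := by
  obtain ⟨U, hU, hEU⟩ := hE.residualEq_isOpen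
  have hUne : U.Nonempty := by
    by_contra hcon
    rw [not_nonempty_iff_eq_empty] at hcon
    apply hne
    have : ∀ᶠ x in residual ℝ, x ∉ E := by
      filter_upwards [hEU] with x hx hxE
      rw [eq_iff_iff] at hx
      have : x ∈ U := hx.1 hxE
      rw [hcon] at this
      exact this
    exact this
  obtain ⟨c, hc⟩ := hUne
  obtain ⟨δ, hδ, hball⟩ := Metric.isOpen_iff.1 hU c hc
  rw [Real.ball_eq_Ioo] at hball
  obtain ⟨ω, hωW, hω0, hωδ⟩ := hW δ hδ
  have hbase : ∀ᶠ x in residual ℝ, x ∈ U → x ∈ E := by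
    filter_upwards [hEU] with x hx hxU
    rw [eq_iff_iff] at hx
    exact hx.2 hxU
  have hinvZ : ∀ k : ℤ, ∀ θ, θ ∈ E ↔ θ + k * ω ∈ E := by
    have hnat : ∀ n : ℕ, ∀ θ, θ ∈ E ↔ θ + n * ω ∈ E := by
      intro n
      induction n with
      | zero => intro θ; simp
      | succ n ih =>
        intro θ
        rw [ih θ, hinv ω hωW (θ + n * ω)]
        push_cast
        ring_nf
    intro k θ
    obtain ⟨n, rfl | rfl⟩ := k.eq_nat_or_neg
    · simpa using hnat n θ
    · have := hnat n (θ + ((-(n : ℤ) : ℤ) : ℝ) * ω)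
      rw [this]
      push_cast
      ring_nf
  have hall : ∀ᶠ x in residual ℝ, ∀ k : ℤ, x + k * ω ∈ U → x + k * ω ∈ E :=
    eventually_countable_forall.2 fun k => eventually_residual_add hbase (k * ω)
  filter_upwards [hall] with θ hθ
  -- choose `k` with `θ + k ω` in the window
  obtain ⟨k, hk⟩ : ∃ k : ℤ, θ + k * ω ∈ Ioo (c - δ) (c + δ) := by
    refine ⟨⌊(c - θ) / ω⌋, ?_⟩
    have h1 := Int.floor_le ((c - θ) / ω)
    have h2 := Int.lt_floor_add_one ((c - θ) / ω)
    rw [le_div_iff₀ hω0] at h1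
    rw [div_lt_iff₀ hω0] at h2
    constructor
    · nlinarith
    · nlinarith
  exact (hinvZ k θ).2 (hθ k (hball hk))

end Pool.Agent.Helper71.TwoPt
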