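import Pool.Agent.Helper71.TwoPt.Sym

set_option autoImplicit false

open Set Topology Filter Complex

namespace Pool.Agent.Helper71.TwoPt

/-- The multipliers preserving `A`. -/
def Mult (A : Set ℂ) : Set ℂ := {α | α ≠ 0 ∧ ∀ z, z ∈ A ↔ α * z ∈ A}

theorem pair_unique {S : ℝ → Prop} {s s' u u' : ℝ} (hS : ∀ t, S t ↔ t = s ∨ t = s')
    (hss : s < s') (huu : u < u') (hu : S u) (hu' : S u') : u = s ∧ u' = s' := by
  have a1 := (hS u).1 hu
  have a2 := (hS u').1 hu'
  rcases a1 with h | h <;> rcases a2 with h' | h'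
  · linarith
  · exact ⟨h, h'⟩
  · linarith
  · linarith

theorem mul_Phi (α : ℂ) (κ θ t : ℝ) :
    α * Phi κ θ t = Phi (‖α‖ * κ) (θ + arg α) (‖α‖ * t) := by
  have h : exp (((θ + arg α : ℝ) : ℂ) * I) = exp (θ * I) * exp (arg α * I) := by
    rw [← Complex.exp_add]
    push_cast
    ring_nf
  rw [Phi_eq, Phi_eq, h]
  conv_lhs => rw [← Complex.norm_mul_exp_arg_mul_I α]
  push_cast
  ring

theorem Phi_add_two_pi (κ θ t : ℝ) (j : ℤ) : Phi κ (θ + j * (2 * Real.pi)) t = Phi κ θ t := by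
  simp only [Phi]
  rw [Real.cos_add_int_mul_two_pi, Real.sin_add_int_mul_two_pi]

theorem mult_inv {A : Set ℂ} {α : ℂ} (hα : α ∈ Mult A) : α⁻¹ ∈ Mult A := by
  refine ⟨inv_ne_zero hα.1, fun z => ?_⟩
  rw [hα.2 (α⁻¹ * z), ← mul_assoc, mul_inv_cancel₀ hα.1, one_mul]

theorem mult_mul {A : Set ℂ} {α β : ℂ} (hα : α ∈ Mult A) (hβ : β ∈ Mult A) : α * β ∈ Mult A := by
  refine ⟨mul_ne_zero hα.1 hβ.1, fun z => ?_⟩
  rw [mul_assoc, ← hα.2 (β * z), ← hβ.2 z]

/-- No expanding multiplier preserves a Borel two-point set. -/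
theorem IsTwoPointC.no_expand {A : Set ℂ} (hA : IsTwoPointC A) (hAm : MeasurableSet A) {α : ℂ}
    (hα : α ∈ Mult A) (h1 : 1 < ‖α‖) : False := by
  choose lo hi hlt hmem using hA.exists_pair 0
  set r : ℝ := ‖α‖ with hr
  set ω : ℝ := arg α with hω
  have hr0 : 0 < r := by linarith
  set M : ℝ → ℝ := fun θ => max |lo θ| |hi θ| with hM
  have hMpos : ∀ θ, 0 < M θ := by
    intro θ
    by_contra hcon
    push Not at hcon
    have h2 : |lo θ| ≤ 0 := (le_max_left _ _).trans hcon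
    have h3 : |hi θ| ≤ 0 := (le_max_right _ _).trans hcon
    have := hlt θ
    rw [abs_nonpos_iff.1 h2, abs_nonpos_iff.1 h3] at this
    exact lt_irrefl _ this
  have hstep : ∀ θ, M (θ + ω) = r * M θ := by
    intro θ
    have h2 : ∀ t, Phi 0 θ t ∈ A → Phi 0 (θ + ω) (r * t) ∈ A := by
      intro t ht
      have := (hα.2 _).1 ht
      rwa [mul_Phi, mul_zero] at this
    have h3 := pair_unique (hmem (θ + ω)) (hlt _) (mul_lt_mul_of_pos_left (hlt θ) hr0)
      (h2 _ ((hmem θ (lo θ)).2 (Or.inl rfl))) (h2 _ ((hmem θ (hi θ)).2 (Or.inr rfl)))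
    simp only [hM]
    rw [← h3.1, ← h3.2, abs_mul, abs_mul, abs_of_pos hr0, mul_max_of_nonneg _ _ hr0.le]
  have hpow : ∀ (n : ℕ) θ, M (θ + n * ω) = r ^ n * M θ := by
    intro n
    induction n with
    | zero => intro θ; simp
    | succ n ih =>
      intro θ
      have : θ + ((n + 1 : ℕ) : ℝ) * ω = (θ + n * ω) + ω := by push_cast; ring
      rw [this, hstep, ih, pow_succ]
      ring
  have hper : ∀ (j : ℤ) θ, M (θ + j * (2 * Real.pi)) = M θ := by
    intro j θ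
    have h3 := pair_unique (hmem (θ + j * (2 * Real.pi))) (hlt _) (hlt θ)
      (by rw [Phi_add_two_pi]; exact (hmem θ (lo θ)).2 (Or.inl rfl))
      (by rw [Phi_add_two_pi]; exact (hmem θ (hi θ)).2 (Or.inr rfl))
    simp only [hM]
    rw [← h3.1, ← h3.2]
  -- the level sets
  set R : ℕ → Set (ℝ × ℝ) := fun N => {p | ((N : ℝ) + 1)⁻¹ ≤ max |p.1| |p.2| ∧
    max |p.1| |p.2| ≤ (N : ℝ) + 1} with hR
  have hRm : ∀ N, MeasurableSet (R N) := by
    intro N
    have h2 : IsClosed {p : ℝ × ℝ | ((N : ℝ) + 1)⁻¹ ≤ max |p.1| |p.2|} :=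
      isClosed_le (by fun_prop) (by fun_prop)
    have h3 : IsClosed {p : ℝ × ℝ | max |p.1| |p.2| ≤ (N : ℝ) + 1} :=
      isClosed_le (by fun_prop) (by fun_prop)
    exact (h2.inter h3).measurableSet
  set E : ℕ → Set ℝ := fun N => {θ | ∃ s s' : ℝ, s < s' ∧ Phi 0 θ s ∈ A ∧ Phi 0 θ s' ∈ A ∧
    (s, s') ∈ R N} with hE
  have hEm : ∀ N, MeasurableSet (E N) := fun N => hA.measurableSet_dir hAm 0 (hRm N)
  have hEM : ∀ N θ, θ ∈ E N → ((N : ℝ) + 1)⁻¹ ≤ M θ ∧ M θ ≤ (N : ℝ) + 1 := by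
    rintro N θ ⟨s, s', h2, h3, h4, h5⟩
    have h6 := pair_unique (hmem θ) (hlt θ) h2 h3 h4
    simp only [hM]
    rw [← h6.1, ← h6.2]
    exact h5
  have hcov : ∃ N, ¬ IsMeagre (E N) := by
    by_contra hcon
    push Not at hcon
    have h2 : IsMeagre (⋃ N, E N) := isMeagre_iUnion hcon
    refine not_isMeagre_of_isOpen (isOpen_univ (X := ℝ)) univ_nonempty (h2.mono ?_)
    intro θ _
    obtain ⟨N₁, hN₁⟩ := exists_nat_ge (M θ)
    obtain ⟨N₂, hN₂⟩ := exists_nat_ge (M θ)⁻¹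
    refine mem_iUnion.2 ⟨max N₁ N₂, lo θ, hi θ, hlt θ, (hmem θ _).2 (Or.inl rfl),
      (hmem θ _).2 (Or.inr rfl), ?_, ?_⟩
    · have h3 : (M θ)⁻¹ ≤ ((max N₁ N₂ : ℕ) : ℝ) + 1 := by
        have : (N₂ : ℝ) ≤ ((max N₁ N₂ : ℕ) : ℝ) := by exact_mod_cast le_max_right _ _
        linarith
      exact inv_le_of_inv_le₀ (hMpos θ) h3
    · have : (N₁ : ℝ) ≤ ((max N₁ N₂ : ℕ) : ℝ) := by exact_mod_cast le_max_left _ _
      show M θ ≤ _
      linarith
  obtain ⟨N, hN⟩ := hcov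
  obtain ⟨U, hU, hEU⟩ := (hEm N).residualEq_isOpen
  have hUne : U.Nonempty := by
    by_contra hcon
    rw [not_nonempty_iff_eq_empty] at hcon
    apply hN
    have : ∀ᶠ x in residual ℝ, x ∉ E N := by
      filter_upwards [hEU] with x hx hxE
      rw [eq_iff_iff] at hx
      have : x ∈ U := hx.1 hxE
      rw [hcon] at this
      exact this
    exact this
  obtain ⟨c, hc⟩ := hUne
  obtain ⟨δ, hδ, hball⟩ := Metric.isOpen_iff.1 hU c hc
  rw [Real.ball_eq_Ioo] at hball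
  have hbase : ∀ᶠ x in residual ℝ, x ∈ U → x ∈ E N := by
    filter_upwards [hEU] with x hx hxU
    rw [eq_iff_iff] at hx
    exact hx.2 hxU
  -- a large power close to the identity modulo `2π`
  obtain ⟨n₀, hn₀⟩ := pow_unbounded_of_one_lt (((N : ℝ) + 1) * ((N : ℝ) + 1)) h1
  obtain ⟨n, hn⟩ := exists_nat_gt (2 * Real.pi / (δ / 2))
  have hpi := Real.pi_pos
  have hnpos : 0 < n := by
    have : 0 < (n : ℝ) := lt_trans (by positivity) hn
    exact_mod_cast this
  obtain ⟨j, k, hk0, _, hjk⟩ := Real.exists_int_int_abs_mul_sub_le ((n₀ : ℝ) * ω / (2 * Real.pi))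
    hnpos
  set τ : ℝ := (k : ℝ) * (n₀ * ω) - j * (2 * Real.pi) with hτ
  have hτe : τ = (2 * Real.pi) * ((k : ℝ) * ((n₀ : ℝ) * ω / (2 * Real.pi)) - j) := by
    rw [hτ]; field_simp
  have hτδ : |τ| < δ / 2 := by
    rw [hτe, abs_mul, abs_of_pos (by positivity)]
    calc 2 * Real.pi * |(k : ℝ) * ((n₀ : ℝ) * ω / (2 * Real.pi)) - j|
        ≤ 2 * Real.pi * (1 / ((n : ℝ) + 1)) := by gcongr
      _ < δ / 2 := by
        rw [mul_one_div, div_lt_iff₀ (by positivity)]
        rw [div_lt_iff₀ (by positivity)] at hn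
        nlinarith
  obtain ⟨x, hxI, hx1, hx2⟩ := (dense_of_mem_residual
    (hbase.and (eventually_residual_add hbase τ))).inter_open_nonempty
      (Ioo (c - δ / 2) (c + δ / 2)) isOpen_Ioo (nonempty_Ioo.2 (by linarith))
  have hxE : x ∈ E N := hx1 (hball ⟨by linarith [hxI.1], by linarith [hxI.2]⟩)
  have hxE' : x + τ ∈ E N := by
    apply hx2
    apply hball
    rw [abs_lt] at hτδ
    exact ⟨by linarith [hxI.1, hτδ.1], by linarith [hxI.2, hτδ.2]⟩
  have hkn : ((k.toNat : ℤ) : ℝ) = k := by rw [Int.toNat_of_nonneg hk0.le]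
  have hMx : M (x + τ) = r ^ (k.toNat * n₀) * M x := by
    have e : x + τ = (x + ((k.toNat * n₀ : ℕ) : ℝ) * ω) + ((-j : ℤ) : ℝ) * (2 * Real.pi) := by
      rw [hτ]
      push_cast
      have : ((k.toNat : ℕ) : ℝ) = k := by exact_mod_cast hkn
      rw [this]
      ring
    rw [e, hper, hpow]
  have b1 := (hEM N x hxE).1
  have b2 := (hEM N _ hxE').2
  rw [hMx] at b2
  have hpow2 : r ^ n₀ ≤ r ^ (k.toNat * n₀) := by
    apply pow_le_pow_right₀ h1.le
    have : 1 ≤ k.toNat := by omega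
    nlinarith
  have hNpos : 0 < (N : ℝ) + 1 := by positivity
  have h5 : ((N : ℝ) + 1) * ((N : ℝ) + 1) * ((N : ℝ) + 1)⁻¹ < (N : ℝ) + 1 := by
    calc ((N : ℝ) + 1) * ((N : ℝ) + 1) * ((N : ℝ) + 1)⁻¹
        < r ^ (k.toNat * n₀) * ((N : ℝ) + 1)⁻¹ := by
          apply mul_lt_mul_of_pos_right (lt_of_lt_of_le hn₀ hpow2) (inv_pos.2 hNpos)
      _ ≤ r ^ (k.toNat * n₀) * M x := by
          apply mul_le_mul_of_nonneg_left b1 (by positivity)
      _ ≤ (N : ℝ) + 1 := b2
  rw [mul_assoc, mul_inv_cancel₀ hNpos.ne', mul_one] at h5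
  exact lt_irrefl _ h5

/-- Only finitely many rotations about `0` preserve a Borel two-point set. -/
theorem IsTwoPointC.finite_of_unit {A : Set ℂ} (hA : IsTwoPointC A) (hAm : MeasurableSet A)
    (hunit : ∀ α ∈ Mult A, ‖α‖ = 1) : (Mult A).Finite := by
  by_contra hinf
  rw [← Set.Infinite] at hinf
  set W : Set ℝ := {ω | exp (ω * I) ∈ Mult A} with hW
  have hsmall : ∀ δ > 0, ∃ ω ∈ W, 0 < ω ∧ ω < δ := by
    intro δ hδ
    have hmaps : MapsTo (fun α : ℂ => ⌊arg α / δ⌋) (Mult A)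
        (Icc ⌊-Real.pi / δ⌋ ⌊Real.pi / δ⌋) := by
      intro α _
      constructor
      · apply Int.floor_le_floor
        exact div_le_div_of_nonneg_right (Complex.neg_pi_lt_arg α).le hδ.le
      · apply Int.floor_le_floor
        exact div_le_div_of_nonneg_right (Complex.arg_le_pi α) hδ.le
    obtain ⟨α, hα, β, hβ, hne, heq⟩ := hinf.exists_ne_map_eq_of_mapsTo hmaps (Set.finite_Icc _ _)
    have hclose : |arg α - arg β| < δ := by
      have h1 := Int.abs_sub_lt_one_of_floor_eq_floor heq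
      rw [← sub_div, abs_div, abs_of_pos hδ, div_lt_one hδ] at h1
      exact h1
    have hargne : arg α ≠ arg β := by
      intro h
      apply hne
      rw [← Complex.norm_mul_exp_arg_mul_I α, ← Complex.norm_mul_exp_arg_mul_I β, hunit α hα,
        hunit β hβ, h]
    have hexp : ∀ γ ∈ Mult A, ∀ γ' ∈ Mult A, ((arg γ - arg γ' : ℝ)) ∈ W := by
      intro γ hγ γ' hγ'
      have h1 : γ * γ'⁻¹ ∈ Mult A := mult_mul hγ (mult_inv hγ')
      have h2 : γ * γ'⁻¹ = exp ((arg γ - arg γ' : ℝ) * I) := by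
        have e1 : γ = exp (arg γ * I) := by
          conv_lhs => rw [← Complex.norm_mul_exp_arg_mul_I γ, hunit γ hγ]
          simp
        have e2 : γ' = exp (arg γ' * I) := by
          conv_lhs => rw [← Complex.norm_mul_exp_arg_mul_I γ', hunit γ' hγ']
          simp
        conv_lhs => rw [e1, e2]
        rw [← Complex.exp_neg, ← Complex.exp_add]
        push_cast
        ring_nf
      rw [hW]
      show exp ((arg γ - arg γ' : ℝ) * I) ∈ Mult A
      rw [← h2]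
      exact h1
    rcases lt_or_gt_of_ne hargne with h | h
    · refine ⟨arg β - arg α, hexp β hβ α hα, by linarith, ?_⟩
      rw [abs_lt] at hclose
      linarith [hclose.1]
    · refine ⟨arg α - arg β, hexp α hα β hβ, by linarith, ?_⟩
      rw [abs_lt] at hclose
      linarith [hclose.2]
  choose lo hi hlt hmem using hA.exists_pair 1
  have hrot : ∀ ω θ t : ℝ, exp (ω * I) * Phi 1 θ t = Phi 1 (θ + ω) t := by
    intro ω θ t
    have h : exp (((θ + ω : ℝ) : ℂ) * I) = exp (θ * I) * exp (ω * I) := by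
      rw [← Complex.exp_add]
      push_cast
      ring_nf
    rw [Phi_eq, Phi_eq, h]
    ring
  have hloinv : ∀ ω ∈ W, ∀ θ, lo (θ + ω) = lo θ := by
    intro ω hω θ
    have h2 : ∀ t, Phi 1 θ t ∈ A → Phi 1 (θ + ω) t ∈ A := by
      intro t ht
      have h3 : exp (ω * I) ∈ Mult A := hω
      have := (h3.2 _).1 ht
      rwa [hrot] at this
    exact (pair_unique (hmem (θ + ω)) (hlt _) (hlt θ) (h2 _ ((hmem θ (lo θ)).2 (Or.inl rfl)))
      (h2 _ ((hmem θ (hi θ)).2 (Or.inr rfl)))).1.symm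
  set E : ℚ → Set ℝ := fun q => {θ | ∃ s s' : ℝ, s < s' ∧ Phi 1 θ s ∈ A ∧ Phi 1 θ s' ∈ A ∧
    (s, s') ∈ {p : ℝ × ℝ | p.1 < q}} with hE
  have hEm : ∀ q, MeasurableSet (E q) := fun q =>
    hA.measurableSet_dir hAm 1 (measurableSet_lt (by fun_prop) (by fun_prop))
  have hElo : ∀ q θ, θ ∈ E q ↔ lo θ < q := by
    intro q θ
    constructor
    · rintro ⟨s, s', h2, h3, h4, h5⟩
      rw [← (pair_unique (hmem θ) (hlt θ) h2 h3 h4).1]
      exact h5
    · intro h
      exact ⟨lo θ, hi θ, hlt θ, (hmem θ _).2 (Or.inl rfl), (hmem θ _).2 (Or.inr rfl), h⟩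
  have hzo : ∀ q, (∀ᶠ θ in residual ℝ, θ ∈ E q) ∨ (∀ᶠ θ in residual ℝ, θ ∉ E q) := by
    intro q
    by_cases hq : IsMeagre (E q)
    · right; exact hq
    · left
      refine residual_of_invariant (hEm q) hsmall ?_ hq
      intro ω hω θ
      rw [hElo, hElo, hloinv ω hω]
  have hall : ∀ᶠ θ in residual ℝ, ∀ q, (∀ᶠ θ in residual ℝ, θ ∈ E q) ↔ θ ∈ E q := by
    refine eventually_countable_forall.2 fun q => ?_
    rcases hzo q with h | h
    · filter_upwards [h] with θ hθ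
      exact ⟨fun _ => hθ, fun _ => h⟩
    · filter_upwards [h] with θ hθ
      refine ⟨fun h' => ?_, fun h' => absurd h' hθ⟩
      obtain ⟨x, hx⟩ := (dense_of_mem_residual (h.and h')).nonempty
      exact absurd hx.2 hx.1
  obtain ⟨θ₀, hθ₀⟩ := (dense_of_mem_residual hall).nonempty
  have hθ₀' : ∀ q, (∀ᶠ θ in residual ℝ, θ ∈ E q) ↔ θ₀ ∈ E q := hθ₀
  have hconst : ∀ᶠ θ in residual ℝ, Phi 1 θ (lo θ₀) ∈ A := by
    filter_upwards [hall] with θ hθ
    have hiff : ∀ q : ℚ, lo θ < q ↔ lo θ₀ < q := fun q => by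
      rw [← hElo, ← hElo, ← hθ q, ← hθ₀' q]
    have heq : lo θ = lo θ₀ := by
      by_contra hne
      rcases lt_or_gt_of_ne hne with h | h
      · obtain ⟨q, hq1, hq2⟩ := exists_rat_btwn h
        have := (hiff q).1 hq1
        linarith
      · obtain ⟨q, hq1, hq2⟩ := exists_rat_btwn h
        have := (hiff q).2 hq1
        linarith
    rw [← heq]
    exact (hmem θ _).2 (Or.inl rfl)
  set τ : ℝ := lo θ₀ with hτ
  refine hA.isTwoPoint.not_residual_arc (γ := fun θ => ((Phi 1 θ τ).re, (Phi 1 θ τ).im)) (α := 0)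
    (β := 1) ?_ ?_ one_pos ?_
  · simp only [Phi]
    fun_prop
  · intro θ hθ θ' hθ' h
    simp only [Prod.mk.injEq] at h
    have h1 : Phi 1 θ τ = Phi 1 θ' τ := Complex.ext h.1 h.2
    rw [Phi_eq, Phi_eq] at h1
    have hne : ((1 : ℝ) : ℂ) + τ * I ≠ 0 := by
      intro h0
      have := congrArg re h0
      simp at this
    have h2 := mul_left_cancel₀ hne h1
    obtain ⟨n, hn⟩ := Complex.exp_eq_exp_iff_exists_int.1 h2
    have h3 : θ = θ' + n * (2 * Real.pi) := by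
      have h4 := congrArg im hn
      simp at h4
      exact h4
    have h5 : n = 0 := by
      by_contra hn0
      have h6 : (1 : ℝ) ≤ |(n : ℝ)| := by
        have : (1 : ℤ) ≤ |n| := Int.one_le_abs hn0
        exact_mod_cast this
      have h7 : |θ - θ'| = |(n : ℝ)| * (2 * Real.pi) := by
        rw [h3, add_sub_cancel_left, abs_mul, abs_of_pos (by positivity : 0 < 2 * Real.pi)]
      have h8 : |θ - θ'| ≤ 1 := by
        rw [abs_le]
        constructor <;> linarith [hθ.1, hθ.2, hθ'.1, hθ'.2]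
      have h9 := Real.pi_gt_three
      nlinarith
    rw [h3, h5]
    simp
  · have : ∀ᶠ θ in residual ℝ, θ ∉ {t | t ∈ Ioo (0 : ℝ) 1 ∧
        ((Phi 1 t τ).re, (Phi 1 t τ).im) ∉ toPlane A} := by
      filter_upwards [hconst] with θ hθ hmem'
      exact hmem'.2 hθ
    exact this

/-- The multipliers preserving a Borel two-point set form a finite set. -/
theorem IsTwoPointC.finite_mult {A : Set ℂ} (hA : IsTwoPointC A) (hAm : MeasurableSet A) :
    (Mult A).Finite := by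
  apply hA.finite_of_unit hAm
  intro α hα
  rcases lt_trichotomy ‖α‖ 1 with h | h | h
  · exfalso
    refine hA.no_expand hAm (mult_inv hα) ?_
    rw [norm_inv]
    exact (one_lt_inv₀ (norm_pos_iff.2 hα.1)).2 h
  · exact h
  · exact (hA.no_expand hAm hα h).elim

end Pool.Agent.Helper71.TwoPt
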