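import Pool.Agent.Helper71.TwoPt.Sym2

set_option autoImplicit false

open Set Topology Filter Complex

namespace Pool.Agent.Helper71.TwoPt

/-- Direct similarities `z ↦ α z + β` preserving `A`. -/
def Dir (A : Set ℂ) : Set (ℂ × ℂ) := {g | g.1 ≠ 0 ∧ ∀ z, z ∈ A ↔ g.1 * z + g.2 ∈ A}

/-- Indirect similarities `z ↦ α z̄ + β` preserving `A`. -/
def Indir (A : Set ℂ) : Set (ℂ × ℂ) :=
  {g | g.1 ≠ 0 ∧ ∀ z, z ∈ A ↔ g.1 * (starRingEnd ℂ) z + g.2 ∈ A}

theorem IsTwoPointC.nonempty {A : Set ℂ} (hA : IsTwoPointC A) : A.Nonempty := by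
  obtain ⟨s, s', _, h⟩ := hA.exists_pair 0 0
  exact ⟨_, (h s).2 (Or.inl rfl)⟩

theorem IsTwoPointC.no_translation {A : Set ℂ} (hA : IsTwoPointC A) {β : ℂ}
    (h : ∀ z, z ∈ A ↔ z + β ∈ A) : β = 0 := by
  by_contra hβ
  obtain ⟨z, hz⟩ := hA.nonempty
  have h1 : z + β ∈ A := (h z).1 hz
  have h2 : z + β + β ∈ A := (h _).1 h1
  have h3 := hA.eq_of_parallel hz h1 h2 (by simpa using hβ) (by
    intro h4
    apply hβ
    have : (2 : ℂ) * β = 0 := by linear_combination h4
    simpa using this) (by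
      simp only [Complex.add_re, Complex.add_im]
      ring)
  apply hβ
  have : β = 0 := by linear_combination -h3
  exact this

theorem IsTwoPointC.commute {A : Set ℂ} (hA : IsTwoPointC A) {g h : ℂ × ℂ} (hg : g ∈ Dir A)
    (hh : h ∈ Dir A) : g.2 * (1 - h.1) = h.2 * (1 - g.1) := by
  have key : ∀ w, w ∈ A ↔ w + (g.1 * h.2 + g.2 - h.1 * g.2 - h.2) ∈ A := by
    intro w
    -- `w = h (g z)`
    set z : ℂ := ((w - h.2) / h.1 - g.2) / g.1 with hz
    have e1 : h.1 * (g.1 * z + g.2) + h.2 = w := by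
      rw [hz]
      have := hg.1
      have := hh.1
      field_simp
      ring
    have e2 : g.1 * (h.1 * z + h.2) + g.2 = w + (g.1 * h.2 + g.2 - h.1 * g.2 - h.2) := by
      linear_combination e1
    rw [← e2, ← hg.2, ← hh.2]
    conv_lhs => rw [← e1]
    rw [← hh.2, ← hg.2]
  have := hA.no_translation key
  linear_combination this

theorem IsTwoPointC.translate {A : Set ℂ} (hA : IsTwoPointC A) (o : ℂ) :
    IsTwoPointC {z | z + o ∈ A} := by
  intro a b c hab
  have hinj : Function.Injective fun z : ℂ => z + o := add_left_injective o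
  rw [← hA a b (c + a * o.re + b * o.im) hab, ← Set.ncard_image_of_injective _ hinj]
  congr 1
  ext w
  constructor
  · rintro ⟨z, ⟨h1, h2⟩, rfl⟩
    refine ⟨h1, ?_⟩
    have h3 : a * z.re + b * z.im = c := h2
    show a * (z + o).re + b * (z + o).im = _
    simp only [Complex.add_re, Complex.add_im]
    linear_combination h3
  · rintro ⟨h1, h2⟩
    have h3 : a * w.re + b * w.im = c + a * o.re + b * o.im := h2
    refine ⟨w - o, ⟨?_, ?_⟩, sub_add_cancel w o⟩
    · show w - o + o ∈ A
      rwa [sub_add_cancel]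
    · show a * (w - o).re + b * (w - o).im = c
      simp only [Complex.sub_re, Complex.sub_im]
      linear_combination h3

theorem IsTwoPointC.finite_dir {A : Set ℂ} (hA : IsTwoPointC A) (hAm : MeasurableSet A) :
    (Dir A).Finite := by
  by_contra hinf
  rw [← Set.Infinite] at hinf
  obtain ⟨g₀, hg₀, hg₀1⟩ : ∃ g ∈ Dir A, g.1 ≠ 1 := by
    by_contra hcon
    push Not at hcon
    apply hinf
    refine (Set.finite_singleton ((1, 0) : ℂ × ℂ)).subset ?_
    intro g hg
    have h1 := hcon g hg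
    have h2 : g.2 = 0 := by
      apply hA.no_translation
      intro z
      have := hg.2 z
      rwa [h1, one_mul] at this
    rw [mem_singleton_iff]
    exact Prod.ext h1 h2
  set o : ℂ := g₀.2 / (1 - g₀.1) with ho
  have hne : (1 : ℂ) - g₀.1 ≠ 0 := sub_ne_zero.2 (Ne.symm hg₀1)
  have hβ : ∀ g ∈ Dir A, g.2 = o * (1 - g.1) := by
    intro g hg
    have := hA.commute hg hg₀
    rw [ho, div_mul_eq_mul_div, eq_div_iff hne]
    exact this
  have hB := hA.translate o
  have hBm : MeasurableSet {z | z + o ∈ A} :=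
    (continuous_add_const o).measurable hAm
  have hfin := hB.finite_mult hBm
  apply hinf
  refine (hfin.image fun α => ((α, o * (1 - α)) : ℂ × ℂ)).subset ?_
  intro g hg
  refine ⟨g.1, ⟨hg.1, fun z => ?_⟩, ?_⟩
  · show z + o ∈ A ↔ g.1 * z + o ∈ A
    rw [hg.2 (z + o), hβ g hg]
    have : g.1 * (z + o) + o * (1 - g.1) = g.1 * z + o := by ring
    rw [this]
  · exact Prod.ext rfl (hβ g hg).symm

theorem IsTwoPointC.finite_indir {A : Set ℂ} (hA : IsTwoPointC A) (hAm : MeasurableSet A) :
    (Indir A).Finite := by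
  rcases (Indir A).eq_empty_or_nonempty with h | ⟨g₀, hg₀⟩
  · rw [h]; exact Set.finite_empty
  · have hc : (starRingEnd ℂ) g₀.1 ≠ 0 := by
      rw [Ne, map_eq_zero]
      exact hg₀.1
    refine Set.Finite.of_injOn (f := fun g : ℂ × ℂ =>
      ((g.1 * (starRingEnd ℂ) g₀.1, g.1 * (starRingEnd ℂ) g₀.2 + g.2) : ℂ × ℂ)) (t := Dir A) ?_ ?_
      (hA.finite_dir hAm)
    · intro g hg
      refine ⟨mul_ne_zero hg.1 hc, fun z => ?_⟩
      rw [hg₀.2 z, hg.2]
      have : g.1 * (starRingEnd ℂ) (g₀.1 * (starRingEnd ℂ) z + g₀.2) + g.2 =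
          g.1 * (starRingEnd ℂ) g₀.1 * z + (g.1 * (starRingEnd ℂ) g₀.2 + g.2) := by
        rw [map_add, map_mul, Complex.conj_conj]
        ring
      rw [this]
    · intro g _ h _ he
      simp only [Prod.mk.injEq] at he
      have h1 : g.1 = h.1 := mul_right_cancel₀ hc he.1
      have h2 : g.2 = h.2 := by
        have := he.2
        rw [h1] at this
        exact add_left_cancel this
      exact Prod.ext h1 h2

/-- Similarities of the plane are the maps `α z + β` and `α z̄ + β`. -/
theorem similarity_form {f : ℂ → ℂ} {r : ℝ} (hr : 0 < r)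
    (hf : ∀ z w, dist (f z) (f w) = r * dist z w) :
    ∃ α β : ℂ, α ≠ 0 ∧ ((∀ z, f z = α * z + β) ∨ ∀ z, f z = α * (starRingEnd ℂ) z + β) := by
  set h : ℂ → ℂ := fun z => (r : ℂ)⁻¹ * f z with hh
  have hr' : (r : ℂ) ≠ 0 := by exact_mod_cast hr.ne'
  have hiso : Isometry h := by
    apply Isometry.of_dist_eq
    intro z w
    simp only [hh]
    rw [dist_eq_norm, ← mul_sub, norm_mul, norm_inv, Complex.norm_of_nonneg hr.le, ← dist_eq_norm,
      hf, ← mul_assoc, inv_mul_cancel₀ hr.ne', one_mul]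
  set F := hiso.affineIsometryOfStrictConvexSpace with hF
  have hFh : ∀ z, F z = h z := fun z => rfl
  set L : ℂ →ₗᵢ[ℝ] ℂ := F.linearIsometry with hL
  have hLz : ∀ z, h z = L z + h 0 := by
    intro z
    have := F.map_vadd (0 : ℂ) z
    simp only [vadd_eq_add, add_zero] at this
    rw [hFh, hFh] at this
    exact this
  obtain ⟨a, ha⟩ := linear_isometry_complex (L.toLinearIsometryEquiv rfl)
  have hLe : ∀ z, L z = L.toLinearIsometryEquiv rfl z := fun z => rfl
  refine ⟨r * (a : ℂ), r * h 0, mul_ne_zero hr' (Circle.coe_ne_zero a), ?_⟩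
  have hfz : ∀ z, f z = r * L z + r * h 0 := by
    intro z
    have : f z = r * h z := by
      simp only [hh]
      rw [← mul_assoc, mul_inv_cancel₀ hr', one_mul]
    rw [this, hLz z]
    ring
  rcases ha with ha | ha
  · left
    intro z
    rw [hfz, hLe, ha, rotation_apply]
    ring
  · right
    intro z
    rw [hfz, hLe, ha]
    simp only [LinearIsometryEquiv.trans_apply, rotation_apply, conjLIE_apply]
    ring

/-- **The similarity group of a Borel two-point set is finite.** -/
theorem IsTwoPointC.finite_similarities {A : Set ℂ} (hA : IsTwoPointC A) (hAm : MeasurableSet A) :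
    {f : ℂ → ℂ | (∃ r : ℝ, 0 < r ∧ ∀ z w, dist (f z) (f w) = r * dist z w) ∧ f '' A = A}.Finite := by
  have h1 := (hA.finite_dir hAm).image fun g : ℂ × ℂ => fun z : ℂ => g.1 * z + g.2
  have h2 := (hA.finite_indir hAm).image fun g : ℂ × ℂ => fun z : ℂ =>
    g.1 * (starRingEnd ℂ) z + g.2
  refine (h1.union h2).subset ?_
  rintro f ⟨⟨r, hr, hf⟩, hfA⟩
  have hinj : Function.Injective f := by
    intro z w he
    have := hf z w
    rw [he, dist_self] at this
    rcases mul_eq_zero.1 this.symm with h | h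
    · exact absurd h hr.ne'
    · exact dist_eq_zero.1 h
  have hiff : ∀ z, z ∈ A ↔ f z ∈ A := by
    intro z
    constructor
    · intro hz
      rw [← hfA]
      exact mem_image_of_mem f hz
    · intro hz
      rw [← hfA] at hz
      obtain ⟨w, hw, hwz⟩ := hz
      rw [← hinj hwz]
      exact hw
  obtain ⟨α, β, hα, h | h⟩ := similarity_form hr hf
  · left
    refine ⟨(α, β), ⟨hα, fun z => ?_⟩, ?_⟩
    · rw [hiff z, h z]
    · funext z
      exact (h z).symm
  · right
    refine ⟨(α, β), ⟨hα, fun z => ?_⟩, ?_⟩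
    · rw [hiff z, h z]
    · funext z
      exact (h z).symm

end Pool.Agent.Helper71.TwoPt
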