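import Pool.Agent.Helper71.TwoPt.Arc

set_option autoImplicit false

open Set Topology

namespace Pool.Agent.Helper71.TwoPt

/-- A closed set of the plane whose vertical sections have empty interior is nowhere dense. -/
theorem isNowhereDense_of_sections {E : Set (ℝ × ℝ)} (hE : IsClosed E)
    (h : ∀ m : ℝ, interior {c : ℝ | (m, c) ∈ E} = ∅) : IsNowhereDense E := by
  rw [IsNowhereDense, hE.closure_eq]
  by_contra hne
  rw [← ne_eq, ← nonempty_iff_ne_empty] at hne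
  obtain ⟨⟨m, c⟩, hmc⟩ := hne
  have hcont : Continuous fun c : ℝ => (m, c) := by fun_prop
  have hopen : IsOpen {c : ℝ | (m, c) ∈ interior E} := isOpen_interior.preimage hcont
  have hsub : {c : ℝ | (m, c) ∈ interior E} ⊆ {c : ℝ | (m, c) ∈ E} := fun x hx =>
    interior_subset (s := E) hx
  have : c ∈ interior {c : ℝ | (m, c) ∈ E} := interior_maximal hsub hopen hmc
  rw [h m] at this
  exact this

/-- The image of a closed nowhere dense set under a continuous function injective on it and around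
has empty interior. -/
theorem interior_image_eq_empty {h : ℝ → ℝ} (hc : Continuous h) (hi : Function.Injective h)
    {C : Set ℝ} (hC : interior C = ∅) : interior (h '' C) = ∅ := by
  by_contra hne
  rw [← ne_eq, ← nonempty_iff_ne_empty] at hne
  obtain ⟨y, hy⟩ := hne
  obtain ⟨s, hs, rfl⟩ := interior_subset hy
  have hsub : h ⁻¹' interior (h '' C) ⊆ C := by
    intro x hx
    obtain ⟨x', hx', he⟩ := interior_subset hx
    rw [← hi he]
    exact hx'
  have : s ∈ interior C := mem_interior.2 ⟨_, hsub, isOpen_interior.preimage hc, hy⟩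
  rw [hC] at this
  exact this

/-- Lines of slopes in a closed set `I` meeting a meager part of a curve: if nowhere dense compact
sets of parameters have images with empty interior under all the functions `y - m x`, `m ∈ I`, then
these lines form a meager set. -/
theorem isMeagre_hit_curve {γ : ℝ → ℝ × ℝ} (hc : Continuous γ) {I : Set ℝ} (hI : IsClosed I)
    (h : ∀ m ∈ I, ∀ C : Set ℝ, IsCompact C → interior C = ∅ →
      interior ((fun t => (γ t).2 - m * (γ t).1) '' C) = ∅)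
    {P : Set ℝ} (hP : IsMeagre P) : IsMeagre {L : ℝ × ℝ | L.1 ∈ I ∧ L ∈ Hit (γ '' P)} := by
  obtain ⟨T, hT, hTc, hTcov⟩ := isMeagre_iff_countable_union_isNowhereDense.1 hP
  have hmain : IsMeagre (⋃ t ∈ T, ⋃ N : ℕ,
      {L : ℝ × ℝ | L.1 ∈ I ∧ L ∈ Hit (γ '' (closure t ∩ Icc (-(N : ℝ)) N))}) := by
    refine isMeagre_biUnion hTc fun t ht => isMeagre_iUnion fun N => ?_
    have hcomp : IsCompact (closure t ∩ Icc (-(N : ℝ)) N) := isCompact_Icc.inter_left isClosed_closure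
    have hint : interior (closure t ∩ Icc (-(N : ℝ)) N) = ∅ := by
      have h1 : interior (closure t) = ∅ := hT t ht
      exact subset_empty_iff.1 ((interior_mono inter_subset_left).trans h1.subset)
    refine (isNowhereDense_of_sections ?_ fun m => ?_).isMeagre
    · exact (hI.preimage continuous_fst).inter (isClosed_hit (hcomp.image hc))
    · by_cases hm : m ∈ I
      · have h2 := h m hm _ hcomp hint
        rw [← subset_empty_iff, ← h2]
        apply interior_mono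
        rintro c ⟨_, ⟨p, ⟨s, hs, rfl⟩, hp⟩⟩
        exact ⟨s, hs, by simp only at hp ⊢; linarith⟩
      · have : {c : ℝ | (m, c) ∈ {L : ℝ × ℝ | L.1 ∈ I ∧
            L ∈ Hit (γ '' (closure t ∩ Icc (-(N : ℝ)) N))}} = ∅ := by
          rw [eq_empty_iff_forall_notMem]
          rintro c ⟨hc', _⟩
          exact hm hc'
        rw [this, interior_empty]
  refine hmain.mono ?_
  rintro L ⟨hLI, p, ⟨s, hs, rfl⟩, hp⟩
  obtain ⟨t, htT, hst⟩ := hTcov hs
  obtain ⟨N, hN⟩ := exists_nat_ge |s|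
  refine mem_iUnion₂.2 ⟨t, htT, mem_iUnion.2 ⟨N, hLI, γ s, ⟨s, ⟨subset_closure hst, ?_⟩, rfl⟩, hp⟩⟩
  exact abs_le.1 hN

/-- Core lemma: a subset of a Borel part of a two-point set which has no chords in a cone around
the slope `m₀` is met by meagerly many lines with slope near `m₀`. -/
theorem IsTwoPoint.isMeagre_cone {A S Γ : Set (ℝ × ℝ)} (hA : IsTwoPoint A) (hSA : S ⊆ A)
    (hS : MeasurableSet S) (hΓ : Γ ⊆ S) {ε m₀ : ℝ} (hε : 0 < ε)
    (hcone : ∀ a ∈ Γ, ∀ a' ∈ Γ, ε / 2 * |a'.1 - a.1| ≤ |a'.2 - a.2 - m₀ * (a'.1 - a.1)|) :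
    IsMeagre {L : ℝ × ℝ | L.1 ∈ Icc (m₀ - ε / 4) (m₀ + ε / 4) ∧ L ∈ Hit Γ} := by
  set τ : ℝ × ℝ → ℝ := fun a => a.2 - m₀ * a.1 with hτ
  have hcone' : ∀ a ∈ Γ, ∀ a' ∈ Γ, |a'.1 - a.1| ≤ 2 / ε * |τ a' - τ a| := by
    intro a ha a' ha'
    have h := hcone a ha a' ha'
    have e : a'.2 - a.2 - m₀ * (a'.1 - a.1) = τ a' - τ a := by simp only [hτ]; ring
    rw [e] at h
    rw [div_mul_eq_mul_div, le_div_iff₀ hε]
    nlinarith
  have hinj : InjOn τ Γ := by
    intro a ha a' ha' h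
    have h1 := hcone' a ha a' ha'
    rw [h, sub_self, abs_zero, mul_zero] at h1
    have h2 : a'.1 = a.1 := by
      have := abs_nonpos_iff.1 h1
      linarith
    simp only [hτ] at h
    ext
    · exact h2.symm
    · rw [h2] at h; linarith
  -- the Lipschitz function
  set f : ℝ → ℝ := fun t => (Function.invFunOn τ Γ t).1 with hf
  have hfa : ∀ a ∈ Γ, f (τ a) = a.1 := fun a ha => by
    have h1 : Function.invFunOn τ Γ (τ a) ∈ Γ := Function.invFunOn_mem ⟨a, ha, rfl⟩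
    have h2 : τ (Function.invFunOn τ Γ (τ a)) = τ a := Function.invFunOn_eq ⟨a, ha, rfl⟩
    simp only [hf]
    rw [hinj h1 ha h2]
  set κ : NNReal := ⟨2 / ε, by positivity⟩ with hκ
  have hκv : (κ : ℝ) = 2 / ε := rfl
  have hfL : LipschitzOnWith κ f (τ '' Γ) := by
    rw [lipschitzOnWith_iff_dist_le_mul]
    rintro _ ⟨a, ha, rfl⟩ _ ⟨a', ha', rfl⟩
    rw [hfa a ha, hfa a' ha', Real.dist_eq, Real.dist_eq, hκv]
    exact hcone' a' ha' a ha
  obtain ⟨g, hg, hgf⟩ := hfL.extend_real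
  have hga : ∀ a ∈ Γ, g (τ a) = a.1 := fun a ha => by
    rw [← hgf (mem_image_of_mem τ ha), hfa a ha]
  have hgc : Continuous g := hg.continuous
  -- the Lipschitz arc
  set γ : ℝ → ℝ × ℝ := fun t => (g t, t + m₀ * g t) with hγ
  have hγc : Continuous γ := by simp only [hγ]; fun_prop
  have hγi : Function.Injective γ := by
    intro t t' h
    have h1 := congrArg Prod.fst h
    have h2 := congrArg Prod.snd h
    simp only [hγ] at h1 h2
    rw [h1] at h2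
    linarith
  have hγa : ∀ a ∈ Γ, γ (τ a) = a := fun a ha => by
    simp only [hγ]
    rw [hga a ha]
    ext
    · rfl
    · simp only [hτ]; ring
  have hP := hA.isMeagre_preimage hSA hS hγc hγi
  have hmain := isMeagre_hit_curve hγc (I := Icc (m₀ - ε / 4) (m₀ + ε / 4)) isClosed_Icc
    (fun m hm C _ hC => by
      refine interior_image_eq_empty (by fun_prop) ?_ hC
      intro t t' h
      simp only [hγ] at h
      have hd : t - t' = (m - m₀) * (g t - g t') := by linear_combination h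
      have hgd : |g t - g t'| ≤ 2 / ε * |t - t'| := by
        have := hg.dist_le_mul t t'
        rwa [Real.dist_eq, Real.dist_eq, hκv] at this
      have hmm : |m - m₀| ≤ ε / 4 := by
        rw [abs_le]
        constructor <;> linarith [hm.1, hm.2]
      have h3 : |t - t'| ≤ ε / 4 * (2 / ε * |t - t'|) := by
        calc |t - t'| = |m - m₀| * |g t - g t'| := by rw [hd, abs_mul]
          _ ≤ ε / 4 * (2 / ε * |t - t'|) := by gcongr
      have h4 : ε / 4 * (2 / ε * |t - t'|) = |t - t'| / 2 := by field_simp; ring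
      rw [h4] at h3
      have h5 : |t - t'| ≤ 0 := by linarith
      have := abs_nonpos_iff.1 h5
      linarith) hP
  refine hmain.mono ?_
  rintro L ⟨hL1, a, ha, hLa⟩
  exact ⟨hL1, a, ⟨τ a, by rw [mem_preimage, hγa a ha]; exact hΓ ha, hγa a ha⟩, hLa⟩

/-- **Generic lines are tangent.** Let `S` be a Borel subset of a two-point set. For comeagerly
many lines `L`, `L` is tangent to `S` from both sides at every point `a ∈ S ∩ L`. -/
theorem IsTwoPoint.generic_tangent {A S : Set (ℝ × ℝ)} (hA : IsTwoPoint A) (hSA : S ⊆ A)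
    (hS : MeasurableSet S) :
    ∀ᶠ L : ℝ × ℝ in residual (ℝ × ℝ), ∀ a ∈ S, a.2 = L.1 * a.1 + L.2 → ∀ ε > 0,
      (∃ z ∈ S, a.1 < z.1 ∧ z.1 < a.1 + ε ∧ |z.2 - (L.1 * z.1 + L.2)| ≤ ε * (z.1 - a.1)) ∧
      (∃ z ∈ S, a.1 - ε < z.1 ∧ z.1 < a.1 ∧ |z.2 - (L.1 * z.1 + L.2)| ≤ ε * (a.1 - z.1)) := by
  -- one side at scale `ε`
  have key : ∀ (bad : ℝ × ℝ → ℝ → Prop) (ε : ℝ), 0 < ε →
      (∀ a ∈ S, ∀ a' ∈ S, ∀ m m' : ℝ, bad a m → bad a' m' → a.1 < a'.1 → a'.1 < a.1 + ε →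
        (ε * (a'.1 - a.1) ≤ |a'.2 - a.2 - m * (a'.1 - a.1)| ∨
          ε * (a'.1 - a.1) ≤ |a'.2 - a.2 - m' * (a'.1 - a.1)|)) →
      IsMeagre {L : ℝ × ℝ | ∃ a ∈ S, a.2 = L.1 * a.1 + L.2 ∧ bad a L.1} := by
    intro bad ε hε hbad
    set Γ : ℚ → ℚ → Set (ℝ × ℝ) := fun m₀ x₀ => {a | a ∈ S ∧ (x₀ : ℝ) < a.1 ∧ a.1 < x₀ + ε ∧
      ∃ m ∈ Icc ((m₀ : ℝ) - ε / 4) (m₀ + ε / 4), bad a m} with hΓ
    have h1 : IsMeagre (⋃ m₀ : ℚ, ⋃ x₀ : ℚ,
        {L : ℝ × ℝ | L.1 ∈ Icc ((m₀ : ℝ) - ε / 4) (m₀ + ε / 4) ∧ L ∈ Hit (Γ m₀ x₀)}) := by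
      refine isMeagre_iUnion fun m₀ => isMeagre_iUnion fun x₀ => ?_
      refine hA.isMeagre_cone hSA hS (fun a ha => ha.1) hε ?_
      have hlt : ∀ a ∈ Γ m₀ x₀, ∀ a' ∈ Γ m₀ x₀, a.1 < a'.1 →
          ε / 2 * (a'.1 - a.1) ≤ |a'.2 - a.2 - m₀ * (a'.1 - a.1)| := by
        rintro a ⟨haS, hax, hax', m, hm, hbm⟩ a' ⟨ha'S, ha'x, ha'x', m', hm', hbm'⟩ hlt
        have hpos : 0 < a'.1 - a.1 := sub_pos.2 hlt
        have hsl : ∀ μ ∈ Icc ((m₀ : ℝ) - ε / 4) (m₀ + ε / 4),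
            ε * (a'.1 - a.1) ≤ |a'.2 - a.2 - μ * (a'.1 - a.1)| →
            ε / 2 * (a'.1 - a.1) ≤ |a'.2 - a.2 - m₀ * (a'.1 - a.1)| := by
          intro μ hμ h
          have h2 : |a'.2 - a.2 - μ * (a'.1 - a.1)| ≤
              |a'.2 - a.2 - m₀ * (a'.1 - a.1)| + |(m₀ - μ) * (a'.1 - a.1)| := by
            have : a'.2 - a.2 - μ * (a'.1 - a.1) =
                (a'.2 - a.2 - m₀ * (a'.1 - a.1)) + (m₀ - μ) * (a'.1 - a.1) := by ring
            rw [this]
            exact abs_add_le _ _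
          have h3 : |((m₀ : ℝ) - μ) * (a'.1 - a.1)| ≤ ε / 4 * (a'.1 - a.1) := by
            rw [abs_mul, abs_of_pos hpos]
            apply mul_le_mul_of_nonneg_right _ hpos.le
            rw [abs_le]
            constructor <;> linarith [hμ.1, hμ.2]
          nlinarith
        rcases hbad a haS a' ha'S m m' hbm hbm' hlt (by linarith) with h | h
        · exact hsl m hm h
        · exact hsl m' hm' h
      intro a ha a' ha'
      rcases lt_trichotomy a.1 a'.1 with h | h | h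
      · rw [abs_of_pos (sub_pos.2 h)]
        exact hlt a ha a' ha' h
      · rw [h, sub_self, abs_zero, mul_zero]
        exact abs_nonneg _
      · have h2 := hlt a' ha' a ha h
        rw [abs_sub_comm a'.1 a.1, abs_of_pos (sub_pos.2 h)]
        refine h2.trans (le_of_eq ?_)
        rw [← abs_neg]
        congr 1
        ring
    refine h1.mono ?_
    rintro L ⟨a, haS, haL, hb⟩
    obtain ⟨m₀, hm₀, hm₀'⟩ := exists_rat_btwn (show L.1 - ε / 4 < L.1 + ε / 4 by linarith)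
    obtain ⟨x₀, hx₀, hx₀'⟩ := exists_rat_btwn (show a.1 - ε < a.1 by linarith)
    refine mem_iUnion.2 ⟨m₀, mem_iUnion.2 ⟨x₀, ⟨by linarith, by linarith⟩, a,
      ⟨haS, hx₀', by linarith, L.1, ⟨by linarith, by linarith⟩, hb⟩, haL⟩⟩
  -- right and left sides
  have hR : ∀ k : ℕ, IsMeagre {L : ℝ × ℝ | ∃ a ∈ S, a.2 = L.1 * a.1 + L.2 ∧
      ∀ z ∈ S, a.1 < z.1 → z.1 < a.1 + 1 / ((k : ℝ) + 1) →
        1 / ((k : ℝ) + 1) * (z.1 - a.1) ≤ |z.2 - a.2 - L.1 * (z.1 - a.1)|} := by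
    intro k
    refine key (fun a m => ∀ z ∈ S, a.1 < z.1 → z.1 < a.1 + 1 / ((k : ℝ) + 1) →
      1 / ((k : ℝ) + 1) * (z.1 - a.1) ≤ |z.2 - a.2 - m * (z.1 - a.1)|) (1 / ((k : ℝ) + 1))
      (by positivity) ?_
    intro a _ a' ha' m m' hb _ h1 h2
    exact Or.inl (hb a' ha' h1 h2)
  have hL : ∀ k : ℕ, IsMeagre {L : ℝ × ℝ | ∃ a ∈ S, a.2 = L.1 * a.1 + L.2 ∧
      ∀ z ∈ S, z.1 < a.1 → a.1 < z.1 + 1 / ((k : ℝ) + 1) →
        1 / ((k : ℝ) + 1) * (a.1 - z.1) ≤ |a.2 - z.2 - L.1 * (a.1 - z.1)|} := by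
    intro k
    refine key (fun a m => ∀ z ∈ S, z.1 < a.1 → a.1 < z.1 + 1 / ((k : ℝ) + 1) →
      1 / ((k : ℝ) + 1) * (a.1 - z.1) ≤ |a.2 - z.2 - m * (a.1 - z.1)|) (1 / ((k : ℝ) + 1))
      (by positivity) ?_
    intro a ha a' _ m m' _ hb h1 h2
    exact Or.inr (hb a ha h1 h2)
  have hR' : ∀ᶠ L : ℝ × ℝ in residual (ℝ × ℝ), ∀ k : ℕ, ¬ ∃ a ∈ S, a.2 = L.1 * a.1 + L.2 ∧
      ∀ z ∈ S, a.1 < z.1 → z.1 < a.1 + 1 / ((k : ℝ) + 1) →
        1 / ((k : ℝ) + 1) * (z.1 - a.1) ≤ |z.2 - a.2 - L.1 * (z.1 - a.1)| :=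
    eventually_countable_forall.2 fun k => hR k
  have hL' : ∀ᶠ L : ℝ × ℝ in residual (ℝ × ℝ), ∀ k : ℕ, ¬ ∃ a ∈ S, a.2 = L.1 * a.1 + L.2 ∧
      ∀ z ∈ S, z.1 < a.1 → a.1 < z.1 + 1 / ((k : ℝ) + 1) →
        1 / ((k : ℝ) + 1) * (a.1 - z.1) ≤ |a.2 - z.2 - L.1 * (a.1 - z.1)| :=
    eventually_countable_forall.2 fun k => hL k
  filter_upwards [hR', hL'] with L h1 h2 a haS haL ε hε
  obtain ⟨k, hk⟩ := exists_nat_one_div_lt hε
  constructor
  · have h := h1 k
    push Not at h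
    obtain ⟨z, hz, hz1, hz2, hz3⟩ := h a haS haL
    refine ⟨z, hz, hz1, by linarith, ?_⟩
    have e : z.2 - (L.1 * z.1 + L.2) = z.2 - a.2 - L.1 * (z.1 - a.1) := by rw [haL]; ring
    rw [e]
    exact hz3.le.trans (mul_le_mul_of_nonneg_right hk.le (by linarith))
  · have h := h2 k
    push Not at h
    obtain ⟨z, hz, hz1, hz2, hz3⟩ := h a haS haL
    refine ⟨z, hz, by linarith, hz1, ?_⟩
    have e : z.2 - (L.1 * z.1 + L.2) = -(a.2 - z.2 - L.1 * (a.1 - z.1)) := by rw [haL]; ring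
    rw [e, abs_neg]
    exact hz3.le.trans (mul_le_mul_of_nonneg_right hk.le (by linarith))

end Pool.Agent.Helper71.TwoPt
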